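import Pool.Agent.Helper96.GP.Defs

open Finset
open scoped Classical

namespace GPG

noncomputable section

variable {L : LS} {P : Par} {pb : ℝ}

theorem Act_congr (C C' : Finset ℕ) (i : Finset ℕ) (y : ℕ) (h : ∀ x < y, (x ∈ C ↔ x ∈ C')) :
    L.Act C i y ↔ L.Act C' i y := by
  unfold LS.Act
  refine or_congr Iff.rfl ⟨?_, ?_⟩
  · rintro ⟨x, hx, hxy, hxi⟩
    exact ⟨x, (h x hxy).1 hx, hxy, hxi⟩
  · rintro ⟨x, hx, hxy, hxi⟩
    exact ⟨x, (h x hxy).2 hx, hxy, hxi⟩

theorem Hit_congr (C C' : Finset ℕ) (y v : ℕ) (h : ∀ x < y, (x ∈ C ↔ x ∈ C')) :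
    L.Hit C y v ↔ L.Hit C' y v := by
  unfold LS.Hit
  constructor
  · rintro ⟨i, hi, hy, hv, ha⟩
    exact ⟨i, hi, hy, hv, (Act_congr C C' i y h).1 ha⟩
  · rintro ⟨i, hi, hy, hv, ha⟩
    exact ⟨i, hi, hy, hv, (Act_congr C C' i y h).2 ha⟩

theorem step_congr (C C' : Finset ℕ) (t : ℕ) (s : St) (h : ∀ x < t + 1, (x ∈ C ↔ x ∈ C')) :
    step L P C t s = step L P C' t s := by
  have hh : ∀ v, L.Hit C t v ↔ L.Hit C' t v := fun v =>
    Hit_congr C C' t v (fun x hx => h x (by omega))
  have ht : t ∈ C ↔ t ∈ C' := h t (by omega)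
  have e1 : stepZ L P C t s = stepZ L P C' t s := by
    funext v; simp only [stepZ, hh, ht]
  have e2 : stepOff L P C t s = stepOff L P C' t s := by
    funext u v; simp only [stepOff, hh]
  have e3 : stepOn L P C t s = stepOn L P C' t s := by
    funext u v; simp only [stepOn, hh]
  unfold step
  rw [e1, e2, e3]

theorem run_congr (C C' : Finset ℕ) (t : ℕ) (h : ∀ x < t, (x ∈ C ↔ x ∈ C')) :
    run L P C t = run L P C' t := by
  induction t with
  | zero => rfl
  | succ t ih =>
    have := ih (fun x hx => h x (by omega))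
    unfold run
    rw [this]
    exact step_congr C C' t _ h

theorem run_inter (C : Finset ℕ) (t : ℕ) : run L P (C ∩ range t) t = run L P C t :=
  run_congr _ _ _ (fun x hx => by simp [hx])

theorem pr_congr (C C' : Finset ℕ) (t : ℕ) (h : ∀ x < t, (x ∈ C ↔ x ∈ C')) :
    pr L P C t = pr L P C' t := by
  unfold pr; rw [run_congr C C' t h]

/-- joint invariant -/
theorem inv_all (hG : Good L P pb) (C : Finset ℕ) (t : ℕ) :
    (∀ v, 0 ≤ (run L P C t).Z v) ∧ (∀ v, ¬ (run L P C t).stop v → (run L P C t).Z v ≤ P.K) ∧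
    (∀ u v, 1 ≤ (run L P C t).Off u v) ∧ (∀ u v, 1 ≤ (run L P C t).On u v) ∧
    (∀ u v, (run L P C t).Off u v = (run L P C t).Off v u) ∧
    (∀ u v, (run L P C t).On u v = (run L P C t).On v u) ∧
    (∀ u v, ¬ (run L P C t).stop v → u < L.N → u ≠ v → (run L P C t).Off u v ≤ 1 + P.e1 ∧
      (run L P C t).On u v ≤ P.E4) := by
  have hm : ∀ s : St, (∀ v, 0 ≤ s.Z v) → (∀ v, ¬ s.stop v → s.Z v ≤ P.K) → ∀ v,
      0 ≤ s.m P v ∧ s.m P v ≤ pb := by
    intro s h1 h2 v
    unfold St.m
    split_ifs with h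
    · exact ⟨le_rfl, hG.pb0⟩
    · refine ⟨mul_nonneg (hG.lam0 v) (h1 v), le_trans ?_ (hG.hpb v)⟩
      exact mul_le_mul_of_nonneg_left (h2 v h) (hG.lam0 v)
  induction t with
  | zero =>
    refine ⟨fun v => by simp [run, St.init], fun v _ => by simpa [run, St.init] using hG.K1,
      fun u v => by simp [run, St.init], fun u v => by simp [run, St.init],
      fun u v => rfl, fun u v => rfl, fun u v _ _ _ => ?_⟩
    have := hG.e10
    have := hG.E41
    simp only [run, St.init]
    exact ⟨by linarith, by linarith⟩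
  | succ t ih =>
    obtain ⟨i1, i2, i3, i4, i5, i6, i7⟩ := ih
    have hp := hm (run L P C t) i1 i2 t
    have hpb2 := hG.pb2
    have h1p : 0 < 1 - (run L P C t).m P t := by linarith [hp.2]
    have h1p' : 1 - (run L P C t).m P t ≤ 1 := by linarith [hp.1]
    refine ⟨?_, ?_, ?_, ?_, ?_, ?_, ?_⟩
    · intro v
      show 0 ≤ stepZ L P C t (run L P C t) v
      unfold stepZ
      split_ifs
      · exact i1 v
      · exact le_rfl
      · exact div_nonneg (i1 v) h1p.le
      · exact i1 v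
    · intro v hv
      have : ¬ (P.K < stepZ L P C t (run L P C t) v) := fun h => hv (Or.inr (Or.inl h))
      exact not_lt.1 this
    · intro u v
      show 1 ≤ stepOff L P C t (run L P C t) u v
      unfold stepOff
      split_ifs
      · rw [le_div_iff₀ h1p]; nlinarith [i3 u v]
      · exact i3 u v
    · intro u v
      show 1 ≤ stepOn L P C t (run L P C t) u v
      unfold stepOn
      split_ifs
      · rw [le_div_iff₀ h1p]; nlinarith [i4 u v]
      · exact i4 u v
    · intro u v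
      show stepOff L P C t (run L P C t) u v = stepOff L P C t (run L P C t) v u
      unfold stepOff
      have hc : L.Coll t u v ↔ L.Coll t v u := by
        unfold LS.Coll; constructor <;> rintro ⟨i, a, b, c, d⟩ <;> exact ⟨i, a, b, d, c⟩
      rw [i5 u v]
      by_cases h : t < u ∧ t < v ∧ L.Hit C t u ∧ L.Hit C t v ∧ ¬ L.Coll t u v
      · rw [if_pos h, if_pos ⟨h.2.1, h.1, h.2.2.2.1, h.2.2.1, fun hh => h.2.2.2.2 (hc.2 hh)⟩]
      · rw [if_neg h, if_neg (fun h' => h ⟨h'.2.1, h'.1, h'.2.2.2.1, h'.2.2.1,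
          fun hh => h'.2.2.2.2 (hc.1 hh)⟩)]
    · intro u v
      show stepOn L P C t (run L P C t) u v = stepOn L P C t (run L P C t) v u
      unfold stepOn
      have hc : L.Coll t u v ↔ L.Coll t v u := by
        unfold LS.Coll; constructor <;> rintro ⟨i, a, b, c, d⟩ <;> exact ⟨i, a, b, d, c⟩
      rw [i6 u v]
      by_cases h : t < u ∧ t < v ∧ L.Hit C t u ∧ L.Hit C t v ∧ L.Coll t u v
      · rw [if_pos h, if_pos ⟨h.2.1, h.1, h.2.2.2.1, h.2.2.1, hc.1 h.2.2.2.2⟩]
      · rw [if_neg h, if_neg (fun h' => h ⟨h'.2.1, h'.1, h'.2.2.2.1, h'.2.2.1,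
          hc.2 h'.2.2.2.2⟩)]
    · intro u v hv hu huv
      constructor
      · by_contra hcon
        exact hv (Or.inr (Or.inr ⟨u, hu, huv, Or.inl (not_le.1 hcon)⟩))
      · by_contra hcon
        exact hv (Or.inr (Or.inr ⟨u, hu, huv, Or.inr (not_le.1 hcon)⟩))

theorem Z_nonneg (hG : Good L P pb) (C : Finset ℕ) (t v : ℕ) : 0 ≤ (run L P C t).Z v :=
  (inv_all hG C t).1 v

theorem Off_one_le (hG : Good L P pb) (C : Finset ℕ) (t u v : ℕ) :
    1 ≤ (run L P C t).Off u v := (inv_all hG C t).2.2.1 u v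

theorem On_one_le (hG : Good L P pb) (C : Finset ℕ) (t u v : ℕ) :
    1 ≤ (run L P C t).On u v := (inv_all hG C t).2.2.2.1 u v

theorem coll_comm (t u v : ℕ) : L.Coll t u v ↔ L.Coll t v u := by
  unfold LS.Coll; constructor <;> rintro ⟨i, a, b, c, d⟩ <;> exact ⟨i, a, b, d, c⟩

theorem Off_symm (C : Finset ℕ) (t u v : ℕ) :
    (run L P C t).Off u v = (run L P C t).Off v u := by
  induction t with
  | zero => rfl
  | succ t ih =>
    show stepOff L P C t (run L P C t) u v = stepOff L P C t (run L P C t) v u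
    unfold stepOff
    have hc : L.Coll t u v ↔ L.Coll t v u := coll_comm t u v
    rw [ih]
    by_cases h : t < u ∧ t < v ∧ L.Hit C t u ∧ L.Hit C t v ∧ ¬ L.Coll t u v
    · rw [if_pos h, if_pos ⟨h.2.1, h.1, h.2.2.2.1, h.2.2.1, fun hh => h.2.2.2.2 (hc.2 hh)⟩]
    · rw [if_neg h, if_neg (fun h' => h ⟨h'.2.1, h'.1, h'.2.2.2.1, h'.2.2.1,
        fun hh => h'.2.2.2.2 (hc.1 hh)⟩)]

theorem On_symm (C : Finset ℕ) (t u v : ℕ) :
    (run L P C t).On u v = (run L P C t).On v u := by
  induction t with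
  | zero => rfl
  | succ t ih =>
    show stepOn L P C t (run L P C t) u v = stepOn L P C t (run L P C t) v u
    unfold stepOn
    have hc : L.Coll t u v ↔ L.Coll t v u := coll_comm t u v
    rw [ih]
    by_cases h : t < u ∧ t < v ∧ L.Hit C t u ∧ L.Hit C t v ∧ L.Coll t u v
    · rw [if_pos h, if_pos ⟨h.2.1, h.1, h.2.2.2.1, h.2.2.1, hc.1 h.2.2.2.2⟩]
    · rw [if_neg h, if_neg (fun h' => h ⟨h'.2.1, h'.1, h'.2.2.2.1, h'.2.2.1,
        hc.2 h'.2.2.2.2⟩)]

/-- while `v` is not stopped the rules hold -/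
theorem Z_le_K (hG : Good L P pb) (C : Finset ℕ) (t v : ℕ) (h : ¬ (run L P C t).stop v) :
    (run L P C t).Z v ≤ P.K := (inv_all hG C t).2.1 v h

theorem Off_le (hG : Good L P pb) (C : Finset ℕ) (t u v : ℕ) (h : ¬ (run L P C t).stop v)
    (hu : u < L.N) (huv : u ≠ v) : (run L P C t).Off u v ≤ 1 + P.e1 :=
  ((inv_all hG C t).2.2.2.2.2.2 u v h hu huv).1

theorem On_le (hG : Good L P pb) (C : Finset ℕ) (t u v : ℕ) (h : ¬ (run L P C t).stop v)
    (hu : u < L.N) (huv : u ≠ v) : (run L P C t).On u v ≤ P.E4 :=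
  ((inv_all hG C t).2.2.2.2.2.2 u v h hu huv).2

theorem m_nonneg (hG : Good L P pb) (C : Finset ℕ) (t v : ℕ) : 0 ≤ (run L P C t).m P v := by
  unfold St.m
  split_ifs
  · exact le_rfl
  · exact mul_nonneg (hG.lam0 _) (Z_nonneg hG C t v)

theorem m_le (hG : Good L P pb) (C : Finset ℕ) (t v : ℕ) : (run L P C t).m P v ≤ pb := by
  unfold St.m
  split_ifs with h
  · exact hG.pb0
  · exact le_trans (mul_le_mul_of_nonneg_left (Z_le_K hG C t v h) (hG.lam0 v)) (hG.hpb v)

theorem pr_nonneg (hG : Good L P pb) (C : Finset ℕ) (t : ℕ) : 0 ≤ pr L P C t :=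
  m_nonneg hG C t t

theorem pr_le (hG : Good L P pb) (C : Finset ℕ) (t : ℕ) : pr L P C t ≤ pb := m_le hG C t t

theorem one_sub_pr_pos (hG : Good L P pb) (C : Finset ℕ) (t : ℕ) : 0 < 1 - pr L P C t := by
  have := pr_le hG C t
  have := hG.pb2
  linarith

theorem stop_mono (C : Finset ℕ) {t t' : ℕ} (h : t ≤ t') (v : ℕ) (hs : (run L P C t).stop v) :
    (run L P C t').stop v := by
  induction h with
  | refl => exact hs
  | step _ ih => exact Or.inl ih

theorem tau_le (v : ℕ) (C : Finset ℕ) : tau L P v C ≤ v := by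
  unfold tau
  exact Nat.find_min' _ (Or.inl rfl)

theorem tau_spec (v : ℕ) (C : Finset ℕ) :
    tau L P v C = v ∨ (run L P C (tau L P v C)).stop v :=
  Nat.find_spec (p := fun t => t = v ∨ (run L P C t).stop v) ⟨v, Or.inl rfl⟩

theorem not_stop_of_lt_tau (v : ℕ) (C : Finset ℕ) (t : ℕ) (h : t < tau L P v C) :
    ¬ (run L P C t).stop v := by
  intro hs
  exact Nat.find_min (p := fun t => t = v ∨ (run L P C t).stop v) ⟨v, Or.inl rfl⟩ h (Or.inr hs)

/-- the tilt of `v` is frozen once `v` is stopped, and at time `v` -/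
theorem Z_tau (C : Finset ℕ) (v t : ℕ) (h : tau L P v C ≤ t) :
    (run L P C t).Z v = (run L P C (tau L P v C)).Z v := by
  induction h with
  | refl => rfl
  | @step t ht ih =>
    show stepZ L P C t (run L P C t) v = _
    rw [← ih]
    unfold stepZ
    split_ifs with h1 h2
    · rfl
    · exfalso
      rcases tau_spec (L := L) (P := P) v C with h3 | h3
      · rw [h3] at ht; exact absurd h2.1 (not_lt.2 ht)
      · exact h1 (stop_mono C ht v h3)
    · exfalso
      rcases tau_spec (L := L) (P := P) v C with h3 | h3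
      · rw [h3] at ht; exact absurd h2.1 (not_lt.2 ht)
      · exact h1 (stop_mono C ht v h3)
    · rfl

/-- `Off u v` is frozen from time `min u v` on -/
theorem Off_frozen (C : Finset ℕ) (u v t : ℕ) (h : min u v ≤ t) :
    (run L P C t).Off u v = (run L P C (min u v)).Off u v := by
  induction h with
  | refl => rfl
  | @step t ht ih =>
    show stepOff L P C t (run L P C t) u v = _
    rw [← ih]
    unfold stepOff
    rw [if_neg]
    rintro ⟨h1, h2, _⟩
    have := lt_min h1 h2
    exact absurd this (not_lt.2 ht)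

theorem On_frozen (C : Finset ℕ) (u v t : ℕ) (h : min u v ≤ t) :
    (run L P C t).On u v = (run L P C (min u v)).On u v := by
  induction h with
  | refl => rfl
  | @step t ht ih =>
    show stepOn L P C t (run L P C t) u v = _
    rw [← ih]
    unfold stepOn
    rw [if_neg]
    rintro ⟨h1, h2, _⟩
    have := lt_min h1 h2
    exact absurd this (not_lt.2 ht)

theorem tau_congr (v : ℕ) (C C' : Finset ℕ) (h : ∀ x < v, (x ∈ C ↔ x ∈ C')) :
    tau L P v C = tau L P v C' := by
  apply le_antisymm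
  · apply Nat.find_min'
    rcases tau_spec (L := L) (P := P) v C' with h3 | h3
    · exact Or.inl h3
    · refine Or.inr ?_
      rw [run_congr C C']
      · exact h3
      · intro x hx; exact h x (lt_of_lt_of_le hx (tau_le v C'))
  · apply Nat.find_min'
    rcases tau_spec (L := L) (P := P) v C with h3 | h3
    · exact Or.inl h3
    · refine Or.inr ?_
      rw [← run_congr C C']
      · exact h3
      · intro x hx; exact h x (lt_of_lt_of_le hx (tau_le v C))

theorem wt_nonneg (hG : Good L P pb) (n : ℕ) (C : Finset ℕ) : 0 ≤ wt L P n C := by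
  unfold wt
  refine prod_nonneg (fun t _ => ?_)
  split_ifs
  · exact pr_nonneg hG C t
  · exact (one_sub_pr_pos hG C t).le

theorem wt_congr (n : ℕ) (C C' : Finset ℕ) (h : ∀ x < n, (x ∈ C ↔ x ∈ C')) :
    wt L P n C = wt L P n C' := by
  unfold wt
  refine prod_congr rfl (fun t ht => ?_)
  have ht' := mem_range.1 ht
  rw [pr_congr C C' t (fun x hx => h x (by omega))]
  simp only [h t ht']

theorem wt_succ (n : ℕ) (C : Finset ℕ) :
    wt L P (n + 1) C = wt L P n C * (if n ∈ C then pr L P C n else 1 - pr L P C n) := by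
  unfold wt
  rw [prod_range_succ]

/-- splitting off the last point -/
theorem Ex_succ (n : ℕ) (f : Finset ℕ → ℝ) :
    Ex L P (n + 1) f = Ex L P n (fun C => pr L P C n * f (insert n C) +
      (1 - pr L P C n) * f C) := by
  unfold Ex
  rw [range_add_one, powerset_insert, sum_union, sum_image, ← sum_add_distrib]
  · refine sum_congr rfl (fun C hC => ?_)
    have hC' : C ⊆ range n := mem_powerset.1 hC
    have hn : n ∉ C := fun h => by simpa using hC' h
    rw [wt_succ, wt_succ, if_neg hn, if_pos (mem_insert_self n C)]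
    have hx : ∀ x < n, (x ∈ insert n C ↔ x ∈ C) := fun x hx => by
      simp [mem_insert, (ne_of_lt hx)]
    rw [wt_congr n (insert n C) C hx, pr_congr (insert n C) C n hx]
    ring
  · intro A hA B hB hAB
    have hA' : n ∉ A := fun h => by simpa using (mem_powerset.1 hA) h
    have hB' : n ∉ B := fun h => by simpa using (mem_powerset.1 hB) h
    rw [← erase_insert hA', ← erase_insert hB', hAB]
  · rw [disjoint_left]
    intro A hA hA2
    obtain ⟨B, _, rfl⟩ := mem_image.1 hA2
    have : n ∈ range n := (mem_powerset.1 hA) (mem_insert_self n B)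
    simp at this

theorem Ex_zero (f : Finset ℕ → ℝ) : Ex L P 0 f = f ∅ := by
  simp [Ex, wt]

theorem Ex_mono (hG : Good L P pb) (n : ℕ) (f g : Finset ℕ → ℝ)
    (h : ∀ C, C ⊆ range n → wt L P n C ≠ 0 → f C ≤ g C) : Ex L P n f ≤ Ex L P n g := by
  unfold Ex
  refine sum_le_sum (fun C hC => ?_)
  by_cases hw : wt L P n C = 0
  · rw [hw]; simp
  · exact mul_le_mul_of_nonneg_left (h C (mem_powerset.1 hC) hw) (wt_nonneg hG n C)

theorem Ex_congr (n : ℕ) (f g : Finset ℕ → ℝ)
    (h : ∀ C, C ⊆ range n → wt L P n C ≠ 0 → f C = g C) : Ex L P n f = Ex L P n g := by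
  unfold Ex
  refine sum_congr rfl (fun C hC => ?_)
  by_cases hw : wt L P n C = 0
  · rw [hw]; simp
  · rw [h C (mem_powerset.1 hC) hw]

theorem Ex_nonneg (hG : Good L P pb) (n : ℕ) (f : Finset ℕ → ℝ)
    (h : ∀ C, C ⊆ range n → wt L P n C ≠ 0 → 0 ≤ f C) : 0 ≤ Ex L P n f := by
  have : Ex L P n (fun _ => 0) ≤ Ex L P n f := Ex_mono hG n _ _ h
  simpa [Ex] using this

theorem Ex_const_mul (n : ℕ) (c : ℝ) (f : Finset ℕ → ℝ) :
    Ex L P n (fun C => c * f C) = c * Ex L P n f := by
  unfold Ex; rw [mul_sum]; refine sum_congr rfl (fun C _ => by ring)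

theorem Ex_add (n : ℕ) (f g : Finset ℕ → ℝ) :
    Ex L P n (fun C => f C + g C) = Ex L P n f + Ex L P n g := by
  unfold Ex; rw [← sum_add_distrib]; refine sum_congr rfl (fun C _ => by ring)

theorem Ex_sum {ι : Type*} (s : Finset ι) (n : ℕ) (f : ι → Finset ℕ → ℝ) :
    Ex L P n (fun C => ∑ a ∈ s, f a C) = ∑ a ∈ s, Ex L P n (f a) := by
  unfold Ex; rw [sum_comm]; refine sum_congr rfl (fun C _ => by rw [mul_sum])

theorem Ex_step_le (hG : Good L P pb) (n : ℕ) (F : ℕ → Finset ℕ → ℝ)
    (hF : ∀ t < n, ∀ C, C ⊆ range t →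
      pr L P C t * F (t + 1) (insert t C) + (1 - pr L P C t) * F (t + 1) C ≤ F t C) :
    Ex L P n (F n) ≤ F 0 ∅ := by
  induction n with
  | zero => rw [Ex_zero]
  | succ n ih =>
    rw [Ex_succ]
    refine le_trans (Ex_mono hG n _ _ (fun C hC _ => hF n (by omega) C hC)) ?_
    exact ih (fun t ht C hC => hF t (by omega) C hC)

theorem Ex_step_eq (n : ℕ) (F : ℕ → Finset ℕ → ℝ)
    (hF : ∀ t < n, ∀ C, C ⊆ range t →
      pr L P C t * F (t + 1) (insert t C) + (1 - pr L P C t) * F (t + 1) C = F t C) :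
    Ex L P n (F n) = F 0 ∅ := by
  induction n with
  | zero => rw [Ex_zero]
  | succ n ih =>
    rw [Ex_succ]
    rw [Ex_congr n _ _ (fun C hC _ => hF n (by omega) C hC)]
    exact ih (fun t ht C hC => hF t (by omega) C hC)

theorem Ex_one (n : ℕ) : Ex L P n (fun _ => 1) = 1 :=
  Ex_step_eq n (fun _ _ => 1) (fun t _ C _ => by ring)

/-- a function of `C ∩ range n` has the same expectation at all times `≥ n` -/
theorem Ex_extend (n k : ℕ) (hk : n ≤ k) (f : Finset ℕ → ℝ)
    (hf : ∀ C, f (C ∩ range n) = f C) : Ex L P k f = Ex L P n f := by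
  induction hk with
  | refl => rfl
  | @step k hk ih =>
    rw [Nat.succ_eq_add_one, Ex_succ, ← ih]
    refine Ex_congr k _ _ (fun C hC _ => ?_)
    have : f (insert k C) = f C := by
      rw [← hf (insert k C), ← hf C]
      congr 1
      ext x
      simp only [mem_inter, mem_insert, mem_range]
      constructor
      · rintro ⟨h1 | h1, h2⟩
        · have : n ≤ k := hk
          omega
        · exact ⟨h1, h2⟩
      · rintro ⟨h1, h2⟩; exact ⟨Or.inr h1, h2⟩
    rw [this]; ring

/-- probability of `v ∈ C` -/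
theorem Ex_mem (v : ℕ) : Ex L P (v + 1) (fun C => if v ∈ C then 1 else 0) =
    Ex L P v (fun C => pr L P C v) := by
  rw [Ex_succ]
  refine Ex_congr v _ _ (fun C hC _ => ?_)
  have hv : v ∉ C := fun h => by simpa using hC h
  rw [if_pos (mem_insert_self v C), if_neg hv]; ring

/-- the tilt of `v` is a martingale -/
theorem Ex_Z (hG : Good L P pb) (v : ℕ) : Ex L P v (fun C => (run L P C v).Z v) = 1 := by
  rw [Ex_step_eq v (fun t C => (run L P C t).Z v)]
  · rfl
  · intro t ht C hC
    have htC : t ∉ C := fun h => by simpa using hC h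
    have hx : ∀ x < t, (x ∈ insert t C ↔ x ∈ C) := fun x hx => by
      simp [mem_insert, (ne_of_lt hx)]
    have hr : run L P (insert t C) t = run L P C t := run_congr _ _ _ hx
    have hh : L.Hit (insert t C) t v ↔ L.Hit C t v := Hit_congr _ _ _ _ hx
    show pr L P C t * stepZ L P (insert t C) t (run L P (insert t C) t) v +
      (1 - pr L P C t) * stepZ L P C t (run L P C t) v = _
    rw [hr]
    have h1 := one_sub_pr_pos hG C t
    unfold stepZ
    rw [hh, if_pos (mem_insert_self t C), if_neg htC]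
    show pr L P C t * _ + _ = _
    by_cases h2 : (run L P C t).stop v
    · simp only [h2, if_true]; ring
    · simp only [h2, if_false]
      by_cases h3 : t < v ∧ L.Hit C t v
      · simp only [h3, and_self, if_true]
        have : (run L P C t).m P t = pr L P C t := rfl
        rw [this]
        field_simp
        ring
      · simp only [h3, if_false]; ring

/-- the probability of `v ∈ C` in terms of the tilt -/
theorem Ex_mem_eq (hG : Good L P pb) (v : ℕ) (n : ℕ) (hn : v < n) :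
    Ex L P n (fun C => if v ∈ C then 1 else 0) =
      P.lam v * (1 - Ex L P v (fun C => if (run L P C v).stop v then (run L P C v).Z v else 0)) := by
  rw [Ex_extend (v + 1) n hn _ (fun C => by simp), Ex_mem]
  have h1 := Ex_Z hG v (L := L)
  have h2 : Ex L P v (fun C => pr L P C v) + P.lam v * Ex L P v (fun C =>
      if (run L P C v).stop v then (run L P C v).Z v else 0) = P.lam v * Ex L P v
      (fun C => (run L P C v).Z v) := by
    rw [← Ex_const_mul, ← Ex_const_mul, ← Ex_add]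
    refine Ex_congr v _ _ (fun C _ _ => ?_)
    unfold pr St.m
    split_ifs <;> ring
  rw [h1] at h2
  linarith

/-- the tilt stays zero -/
theorem Z_zero_of (C : Finset ℕ) (v : ℕ) {t t' : ℕ} (h : t ≤ t')
    (hz : (run L P C t).Z v = 0) : (run L P C t').Z v = 0 := by
  induction h with
  | refl => exact hz
  | @step t' _ ih =>
    show stepZ L P C t' (run L P C t') v = 0
    unfold stepZ
    rw [ih]
    split_ifs <;> simp

theorem pr_ne_zero_of_wt {n : ℕ} {C : Finset ℕ} (hw : wt L P n C ≠ 0) {y : ℕ} (hy : y ∈ C)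
    (hyn : y < n) : pr L P C y ≠ 0 := by
  intro h
  apply hw
  unfold wt
  refine prod_eq_zero (mem_range.2 hyn) ?_
  rw [if_pos hy, h]

theorem not_stop_of_pr_ne {C : Finset ℕ} {y : ℕ} (h : pr L P C y ≠ 0) :
    ¬ (run L P C y).stop y := by
  intro hs
  apply h
  unfold pr St.m
  rw [if_pos hs]

theorem not_hit_of_wt {n : ℕ} {C : Finset ℕ} (hw : wt L P n C ≠ 0) {t y : ℕ} (ht : t ∈ C)
    (hy : y ∈ C) (hyn : y < n) (hty : t < y) : ¬ L.Hit C t y := by
  intro hh
  have hp := pr_ne_zero_of_wt hw hy hyn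
  have hs := not_stop_of_pr_ne hp
  have hst : ¬ (run L P C t).stop y := fun h => hs (stop_mono C hty.le y h)
  apply hp
  have h0 : (run L P C (t + 1)).Z y = 0 := by
    show stepZ L P C t (run L P C t) y = 0
    unfold stepZ
    rw [if_neg hst, if_pos ⟨hty, hh⟩, if_pos ht]
  have := Z_zero_of (L := L) (P := P) C y (Nat.succ_le_of_lt hty) h0
  unfold pr St.m
  rw [if_neg hs, this, mul_zero]

theorem good_of_wt (_hG : Good L P pb) (C : Finset ℕ) (hC : C ⊆ range L.N)
    (hw : wt L P L.N C ≠ 0) (i : Finset ℕ) (hi : i ∈ L.ls) :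
    (L.pre i → (C ∩ i).card ≤ 1) ∧ (C ∩ i).card ≤ 2 := by
  have hlt : ∀ y ∈ C, y < L.N := fun y hy => mem_range.1 (hC hy)
  constructor
  · intro hp
    by_contra hcon
    obtain ⟨a, ha, b, hb, hab⟩ := one_lt_card.1 (not_le.1 hcon)
    rw [mem_inter] at ha hb
    rcases lt_or_gt_of_ne hab with h | h
    · exact not_hit_of_wt hw ha.1 hb.1 (hlt b hb.1) h ⟨i, hi, ha.2, hb.2, Or.inl hp⟩
    · exact not_hit_of_wt hw hb.1 ha.1 (hlt a ha.1) h ⟨i, hi, hb.2, ha.2, Or.inl hp⟩
  · by_contra hcon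
    have h3 : 2 < (C ∩ i).card := not_le.1 hcon
    -- the minimum, and two others
    have hne : (C ∩ i).Nonempty := card_pos.1 (by omega)
    set x := (C ∩ i).min' hne with hx
    have hxm : x ∈ C ∩ i := min'_mem _ _
    have h2 : 1 < ((C ∩ i).erase x).card := by
      rw [card_erase_of_mem hxm]; omega
    obtain ⟨a, ha, b, hb, hab⟩ := one_lt_card.1 h2
    rw [mem_erase, mem_inter] at ha hb
    have hxa : x < a := lt_of_le_of_ne (min'_le _ _ (mem_inter.2 ha.2)) (Ne.symm ha.1)
    have hxb : x < b := lt_of_le_of_ne (min'_le _ _ (mem_inter.2 hb.2)) (Ne.symm hb.1)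
    have hxC := (mem_inter.1 hxm)
    rcases lt_or_gt_of_ne hab with h | h
    · exact not_hit_of_wt hw ha.2.1 hb.2.1 (hlt b hb.2.1) h
        ⟨i, hi, ha.2.2, hb.2.2, Or.inr ⟨x, hxC.1, hxa, hxC.2⟩⟩
    · exact not_hit_of_wt hw hb.2.1 ha.2.1 (hlt a ha.2.1) h
        ⟨i, hi, hb.2.2, ha.2.2, Or.inr ⟨x, hxC.1, hxb, hxC.2⟩⟩

/-- nothing hits a point outside -/
theorem not_hit_out (C : Finset ℕ) (y v : ℕ) (hv : L.N ≤ v) : ¬ L.Hit C y v := by
  rintro ⟨i, hi, _, hvi, _⟩
  have := mem_range.1 (L.sub i hi hvi)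
  omega

end

end GPG
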