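import Mathlib

/-!
# Random sequential classes in a finite linear space

`LS` : a finite linear space on the points `0, …, N-1` (two lines sharing two points are equal);
the lines of `pre` are active from the start, every other line becomes active after the first
point of the class `C` on it.  `y` hits `v` if the line of `y` and `v` is active at time `y`.
The points are scanned in increasing order; `run L P C t` is the state before step `t` when the
class is `C` (it depends only on `C ∩ range t`).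
-/

open Finset
open scoped Classical

namespace GPG

noncomputable section

/-- A finite linear space. -/
structure LS where
  N : ℕ
  ls : Finset (Finset ℕ)
  pre : Finset ℕ → Prop
  sub : ∀ i ∈ ls, i ⊆ range N
  uniq : ∀ i ∈ ls, ∀ j ∈ ls, ∀ a b, a ≠ b → a ∈ i → b ∈ i → a ∈ j → b ∈ j → i = j

/-- Parameters of the process. -/
structure Par where
  lam : ℕ → ℝ
  K : ℝ
  e1 : ℝ
  E4 : ℝ

namespace LS

variable (L : LS)

/-- the line `i` is active at time `t` -/
def Act (C i : Finset ℕ) (t : ℕ) : Prop := L.pre i ∨ ∃ x ∈ C, x < t ∧ x ∈ i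

/-- `y` hits `v` -/
def Hit (C : Finset ℕ) (y v : ℕ) : Prop := ∃ i ∈ L.ls, y ∈ i ∧ v ∈ i ∧ L.Act C i y

/-- three points on a common line -/
def Coll (a b c : ℕ) : Prop := ∃ i ∈ L.ls, a ∈ i ∧ b ∈ i ∧ c ∈ i

/-- pairs `x < z < v` on a common line (not in `pre`) through `v` -/
def Pv (v : ℕ) : Finset (ℕ × ℕ) :=
  ((range v) ×ˢ (range v)).filter
    (fun q => q.1 < q.2 ∧ ∃ i ∈ L.ls, ¬ L.pre i ∧ v ∈ i ∧ q.1 ∈ i ∧ q.2 ∈ i)

/-- weight of the line (not in `pre`) through `u` and `y` -/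
def r (lam : ℕ → ℝ) (u y : ℕ) : ℝ :=
  ∑ j ∈ L.ls.filter (fun j => ¬ L.pre j ∧ u ∈ j ∧ y ∈ j), ∑ x ∈ j, lam x

/-- `s` and `a` lie on a long line missing `v` -/
def Lng (S0 : ℕ) (v s a : ℕ) : Prop := ∃ i ∈ L.ls, s ∈ i ∧ a ∈ i ∧ v ∉ i ∧ S0 < i.card

end LS

/-- State of the process. -/
structure St where
  Z : ℕ → ℝ
  Off : ℕ → ℕ → ℝ
  On : ℕ → ℕ → ℝ
  stop : ℕ → Prop

/-- the current weight of `v` -/
def St.m (P : Par) (s : St) (v : ℕ) : ℝ := if s.stop v then 0 else P.lam v * s.Z v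

def St.init : St := ⟨fun _ => 1, fun _ _ => 1, fun _ _ => 1, fun _ => False⟩

def stepZ (L : LS) (P : Par) (C : Finset ℕ) (t : ℕ) (s : St) (v : ℕ) : ℝ :=
  if s.stop v then s.Z v else
    if t < v ∧ L.Hit C t v then (if t ∈ C then 0 else s.Z v / (1 - s.m P t)) else s.Z v

def stepOff (L : LS) (P : Par) (C : Finset ℕ) (t : ℕ) (s : St) (u v : ℕ) : ℝ :=
  if t < u ∧ t < v ∧ L.Hit C t u ∧ L.Hit C t v ∧ ¬ L.Coll t u v then
    s.Off u v / (1 - s.m P t) else s.Off u v

def stepOn (L : LS) (P : Par) (C : Finset ℕ) (t : ℕ) (s : St) (u v : ℕ) : ℝ :=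
  if t < u ∧ t < v ∧ L.Hit C t u ∧ L.Hit C t v ∧ L.Coll t u v then
    s.On u v / (1 - s.m P t) else s.On u v

/-- one step of the process -/
def step (L : LS) (P : Par) (C : Finset ℕ) (t : ℕ) (s : St) : St where
  Z := stepZ L P C t s
  Off := stepOff L P C t s
  On := stepOn L P C t s
  stop := fun v => s.stop v ∨ P.K < stepZ L P C t s v ∨
    ∃ u < L.N, u ≠ v ∧ (1 + P.e1 < stepOff L P C t s u v ∨ P.E4 < stepOn L P C t s u v)

/-- the state before step `t` -/
def run (L : LS) (P : Par) (C : Finset ℕ) : ℕ → St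
  | 0 => St.init
  | t + 1 => step L P C t (run L P C t)

/-- the probability with which the point `t` is put into the class -/
def pr (L : LS) (P : Par) (C : Finset ℕ) (t : ℕ) : ℝ := (run L P C t).m P t

/-- probability of `C ∩ range n` -/
def wt (L : LS) (P : Par) (n : ℕ) (C : Finset ℕ) : ℝ :=
  ∏ t ∈ range n, if t ∈ C then pr L P C t else 1 - pr L P C t

/-- expectation at time `n` -/
def Ex (L : LS) (P : Par) (n : ℕ) (f : Finset ℕ → ℝ) : ℝ :=
  ∑ C ∈ (range n).powerset, wt L P n C * f C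

/-- the time when `v` is stopped (at most `v`) -/
def tau (L : LS) (P : Par) (v : ℕ) (C : Finset ℕ) : ℕ :=
  Nat.find (p := fun t => t = v ∨ (run L P C t).stop v) ⟨v, Or.inl rfl⟩

/-- compensated weight on the line `i` through `v` -/
def At (L : LS) (P : Par) (v : ℕ) (i C : Finset ℕ) : ℝ :=
  ∑ z ∈ i.filter (fun z => z < tau L P v C ∧ L.Act C i z), pr L P C z / (run L P C z).On v z

/-- number of `y` in `i` such that the line of `y` and `w` is not in `pre` and active -/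
def hh (L : LS) (P : Par) (v : ℕ) (C i : Finset ℕ) (w : ℕ) : ℕ :=
  (i.filter (fun y => y < tau L P v C ∧ y < w ∧
    ∃ j ∈ L.ls, ¬ L.pre j ∧ y ∈ j ∧ w ∈ j ∧ ∃ x ∈ C, x < y ∧ x ∈ j)).card

/-- number of `y` hitting both `u` and `v` before `v` is stopped, not on the line of `u, v` -/
def NN (L : LS) (P : Par) (v : ℕ) (C : Finset ℕ) (u : ℕ) : ℕ :=
  ((range (tau L P v C)).filter (fun y => y < u ∧ L.Hit C y u ∧ L.Hit C y v ∧
    ¬ L.Coll y u v)).card

/-- as `NN`, both hits along lines not in `pre` -/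
def NC (L : LS) (P : Par) (v : ℕ) (C : Finset ℕ) (u : ℕ) : ℕ :=
  ((range (tau L P v C)).filter (fun y => y < u ∧ ¬ L.Coll y u v ∧
    (∃ j ∈ L.ls, ¬ L.pre j ∧ y ∈ j ∧ u ∈ j ∧ ∃ x ∈ C, x < y ∧ x ∈ j) ∧
    (∃ j ∈ L.ls, ¬ L.pre j ∧ y ∈ j ∧ v ∈ j ∧ ∃ x ∈ C, x < y ∧ x ∈ j))).card

/-- Standing assumptions on the parameters. -/
structure Good (L : LS) (P : Par) (pb : ℝ) : Prop where
  lam0 : ∀ v, 0 ≤ P.lam v
  K1 : 1 ≤ P.K
  e10 : 0 ≤ P.e1
  E41 : 1 ≤ P.E4
  hpb : ∀ v, P.lam v * P.K ≤ pb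
  pb0 : 0 ≤ pb
  pb2 : pb ≤ 1 / 2

/-- the factor of a pair in the product lemma -/
def bd (L : LS) (P : Par) (S0 v s s' : ℕ) : ℝ := if L.Lng S0 v s s' then P.E4 else 1

/-- pairs `s < s'` of a finite set -/
def prs (T : Finset ℕ) : Finset (ℕ × ℕ) := (T ×ˢ T).filter (fun q => q.1 < q.2)

end

end GPG
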