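import Pool.Agent.Helper96.GP.Glue

open Finset Filter
open scoped Classical Topology

namespace GPG

noncomputable section

/-! ### mirror images -/

def mir2 (n : ℕ) (q : ℕ × ℕ) : ℕ × ℕ := (mir n q.1, mir n q.2)

theorem fi_mir_inj {n a b : ℕ} (ha : a < n ^ 2) (hb : b < n ^ 2) (h : mir n a = mir n b) : a = b := by
  rw [← mir_mir n a ha, ← mir_mir n b hb, h]

theorem fi_mem_image_mir {n : ℕ} {V : Finset ℕ} (hV : V ⊆ range (n ^ 2)) {x : ℕ} (hx : x < n ^ 2) :
    x ∈ V.image (mir n) ↔ mir n x ∈ V := by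
  rw [mem_image]
  constructor
  · rintro ⟨y, hy, rfl⟩
    rwa [mir_mir n y (mem_range.1 (hV hy))]
  · intro h
    exact ⟨mir n x, h, mir_mir n x hx⟩

theorem fi_image_mir_sub {n : ℕ} {V : Finset ℕ} (hV : V ⊆ range (n ^ 2)) :
    V.image (mir n) ⊆ range (n ^ 2) := by
  intro x hx
  obtain ⟨y, hy, rfl⟩ := mem_image.1 hx
  exact mem_range.2 (mir_lt n y (mem_range.1 (hV hy)))

theorem image_mir_range (n : ℕ) : (range (n ^ 2)).image (mir n) = range (n ^ 2) := by
  apply Subset.antisymm (fi_image_mir_sub (Subset.refl _))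
  intro x hx
  rw [fi_mem_image_mir (Subset.refl _) (mem_range.1 hx)]
  exact mem_range.2 (mir_lt n x (mem_range.1 hx))

theorem XX_mir (n : ℕ) (Q : Finset (ℕ × ℕ)) (hQ : ∀ q ∈ Q, q.1 < n ^ 2 ∧ q.2 < n ^ 2)
    (c : ℕ × ℕ → ℝ) (V : Finset ℕ) (hV : V ⊆ range (n ^ 2)) :
    XX (Q.image (mir2 n)) (fun q => c (mir2 n q)) V = XX Q c (V.image (mir n)) := by
  unfold XX
  rw [filter_image]
  rw [sum_image]
  · have : (Q.filter (fun a => (mir2 n a).1 ∈ V ∧ (mir2 n a).2 ∈ V)) =
        Q.filter (fun q => q.1 ∈ V.image (mir n) ∧ q.2 ∈ V.image (mir n)) := by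
      refine filter_congr (fun q hq => ?_)
      rw [fi_mem_image_mir hV (hQ q hq).1, fi_mem_image_mir hV (hQ q hq).2]
      rfl
    rw [this]
    refine sum_congr rfl (fun q hq => ?_)
    have hq' := hQ q (mem_filter.1 hq).1
    congr 1
    unfold mir2
    simp only
    rw [mir_mir n _ hq'.1, mir_mir n _ hq'.2]
  · intro q hq q' hq' h
    have h1 := hQ q (mem_filter.1 hq).1
    have h2 := hQ q' (mem_filter.1 hq').1
    unfold mir2 at h
    rw [Prod.mk.injEq] at h
    exact Prod.ext (fi_mir_inj h1.1 h2.1 h.1) (fi_mir_inj h1.2 h2.2 h.2)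

theorem card_image_inter (n : ℕ) (V s : Finset ℕ) (hV : V ⊆ range (n ^ 2))
    (hs : s ⊆ range (n ^ 2)) :
    ((V.image (mir n)) ∩ s).card = (V ∩ s.image (mir n)).card := by
  have h1 : (V ∩ s.image (mir n)).image (mir n) = (V.image (mir n)) ∩ s := by
    ext x
    constructor
    · intro hx
      obtain ⟨y, hy, rfl⟩ := mem_image.1 hx
      rw [mem_inter] at hy ⊢
      refine ⟨mem_image_of_mem _ hy.1, ?_⟩
      have := (fi_mem_image_mir hs (mem_range.1 (hV hy.1))).1 hy.2
      exact this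
    · intro hx
      rw [mem_inter] at hx
      have hx' := mem_range.1 (hs hx.2)
      rw [mem_image]
      refine ⟨mir n x, mem_inter.2 ⟨(fi_mem_image_mir hV hx').1 hx.1, mem_image_of_mem _ hx.2⟩,
        mir_mir n x hx'⟩
  rw [← h1, card_image_of_injOn]
  intro a ha b hb hab
  have ha' := mem_range.1 (hV (mem_inter.1 ha).1)
  have hb' := mem_range.1 (hV (mem_inter.1 hb).1)
  exact fi_mir_inj ha' hb' hab

theorem noThree_image {n : ℕ} {C : Finset ℕ} (hC : C ⊆ range (n ^ 2)) (hN : NoThree n C) :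
    NoThree n (C.image (mir n)) := by
  intro a ha b hb c hc hab hbc hac h
  obtain ⟨a', ha', rfl⟩ := mem_image.1 ha
  obtain ⟨b', hb', rfl⟩ := mem_image.1 hb
  obtain ⟨c', hc', rfl⟩ := mem_image.1 hc
  rw [det3_mir n a' b' c' (mem_range.1 (hC ha')) (mem_range.1 (hC hb'))
    (mem_range.1 (hC hc'))] at h
  exact hN a' ha' b' hb' c' hc' (fun e => hab (by rw [e])) (fun e => hbc (by rw [e]))
    (fun e => hac (by rw [e])) (by linarith)

theorem image_sdiff_mir {n : ℕ} {V C : Finset ℕ} (hV : V ⊆ range (n ^ 2)) (hC : C ⊆ V) :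
    (V \ C).image (mir n) = V.image (mir n) \ C.image (mir n) := by
  have hC' : C ⊆ range (n ^ 2) := hC.trans hV
  ext x
  by_cases hx : x < n ^ 2
  · rw [Finset.mem_sdiff, fi_mem_image_mir (sdiff_subset.trans hV) hx, fi_mem_image_mir hV hx,
      fi_mem_image_mir hC' hx, Finset.mem_sdiff]
  · constructor
    · intro h
      exact absurd (mem_range.1 (fi_image_mir_sub (sdiff_subset.trans hV) h)) hx
    · intro h
      exact absurd (mem_range.1 (fi_image_mir_sub hV (Finset.mem_sdiff.1 h).1)) hx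

/-! ### the functionals -/

/-- index set -/
def Om (n : ℕ) : Finset (ℕ × ℕ × ℕ) :=
  (range 6 ×ˢ range (n ^ 2) ×ˢ range (n ^ 2)).filter (fun t => 3 ≤ t.1 → t.2.1 ≠ t.2.2)

def OQ (n M : ℕ) (t : ℕ × ℕ × ℕ) : Finset (ℕ × ℕ) :=
  if t.1 = 0 then Qup n M t.2.1
  else if t.1 = 1 then (Qup n M t.2.1).image (mir2 n)
  else if t.1 = 2 then Qfull n t.2.1
  else if t.1 = 3 then Qd (gline n t.2.1 t.2.2)
  else if t.1 = 4 then Qd (ghalf n t.2.1 t.2.2)
  else Qd ((ghalf n t.2.1 t.2.2).image (mir n))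

def rr2 (n : ℕ) (q : ℕ × ℕ) : ℝ := rho n q.1 * rho n q.2

def Oc (n : ℕ) (t : ℕ × ℕ × ℕ) (q : ℕ × ℕ) : ℝ :=
  if t.1 = 0 then rr2 n q
  else if t.1 = 1 then rr2 n (mir2 n q)
  else 1

def Or (t : ℕ × ℕ × ℕ) : ℕ := if t.1 ≤ 2 then 2 else 1

def OD (n : ℕ) (t : ℕ × ℕ × ℕ) : ℝ := if t.1 ≤ 2 then 1000 * (n : ℝ) * Real.sqrt n else 2

def Oa (n : ℕ) (t : ℕ × ℕ × ℕ) : ℝ :=
  if t.1 ≤ 2 then (n : ℝ) ^ (-(16 / 10) : ℝ) else 1 / Real.log n ^ 6

def Ob (n : ℕ) (t : ℕ × ℕ × ℕ) : ℝ :=
  if t.1 = 0 then 0.9984 * (n : ℝ) ^ 2 * Real.log n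
  else if t.1 = 1 then 0.9984 * (n : ℝ) ^ 2 * Real.log n
  else if t.1 = 2 then 65 * (n : ℝ) ^ 2 * Real.log n
  else if t.1 = 3 then 2 * (gline n t.2.1 t.2.2).card + Real.log n ^ 8
  else 0.5001 * n

theorem Qup_lt {n M w : ℕ} (hw : w < n ^ 2) : ∀ q ∈ Qup n M w, q.1 < n ^ 2 ∧ q.2 < n ^ 2 := by
  intro q hq
  unfold Qup at hq
  rw [mem_filter, mem_product, mem_range, mem_range] at hq
  omega

theorem mem_Om {n : ℕ} {t : ℕ × ℕ × ℕ} : t ∈ Om n ↔ (t.1 < 6 ∧ t.2.1 < n ^ 2 ∧ t.2.2 < n ^ 2) ∧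
    (3 ≤ t.1 → t.2.1 ≠ t.2.2) := by
  simp [Om, mem_product]

/-- values of the functionals -/
theorem XX_O (n M : ℕ) (t : ℕ × ℕ × ℕ) (ht : t ∈ Om n) (V : Finset ℕ) (hV : V ⊆ range (n ^ 2)) :
    XX (OQ n M t) (Oc n t) V =
      if t.1 = 0 then XX (Qup n M t.2.1) (rr2 n) V
      else if t.1 = 1 then XX (Qup n M t.2.1) (rr2 n) (V.image (mir n))
      else if t.1 = 2 then XX (Qfull n t.2.1) (fun _ => 1) V
      else if t.1 = 3 then ((V ∩ gline n t.2.1 t.2.2).card : ℝ)
      else if t.1 = 4 then ((V ∩ ghalf n t.2.1 t.2.2).card : ℝ)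
      else (((V.image (mir n)) ∩ ghalf n t.2.1 t.2.2).card : ℝ) := by
  obtain ⟨⟨h6, h1, h2⟩, h3⟩ := mem_Om.1 ht
  by_cases c0 : t.1 = 0
  · have : Oc n t = rr2 n := by funext q; unfold Oc; rw [if_pos c0]
    rw [this]; unfold OQ; rw [if_pos c0, if_pos c0]
  rw [if_neg c0]
  by_cases c1 : t.1 = 1
  · rw [if_pos c1]
    have e1 : OQ n M t = (Qup n M t.2.1).image (mir2 n) := by
      unfold OQ; rw [if_neg c0, if_pos c1]
    have e2 : Oc n t = (fun q => rr2 n (mir2 n q)) := by
      funext q; unfold Oc; rw [if_neg c0, if_pos c1]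
    rw [e1, e2, XX_mir n _ (Qup_lt h1) (rr2 n) V hV]
  rw [if_neg c1]
  have e2 : Oc n t = (fun _ => 1) := by
    funext q; unfold Oc; rw [if_neg c0, if_neg c1]
  rw [e2]
  by_cases c2 : t.1 = 2
  · rw [if_pos c2]; unfold OQ; rw [if_neg c0, if_neg c1, if_pos c2]
  rw [if_neg c2]
  by_cases c3 : t.1 = 3
  · rw [if_pos c3]; unfold OQ; rw [if_neg c0, if_neg c1, if_neg c2, if_pos c3, XX_Qd]
  rw [if_neg c3]
  by_cases c4 : t.1 = 4
  · rw [if_pos c4]; unfold OQ
    rw [if_neg c0, if_neg c1, if_neg c2, if_neg c3, if_pos c4, XX_Qd]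
  rw [if_neg c4]
  unfold OQ
  rw [if_neg c0, if_neg c1, if_neg c2, if_neg c3, if_neg c4, XX_Qd, card_image_inter n V _ hV]
  intro x hx
  unfold ghalf at hx
  exact mem_range.2 (mem_gline.1 (mem_filter.1 hx).1).1

/-! ### asymptotics -/

theorem tend_log_pow (k : ℕ) (c : ℝ) (hc : 0 < c) :
    ∀ᶠ n : ℕ in atTop, Real.log n ^ k ≤ c * n := by
  have h : (fun x : ℝ => Real.log x ^ (k : ℝ)) =o[atTop] fun x => x ^ (1 : ℝ) :=
    isLittleO_log_rpow_rpow_atTop (k : ℝ) one_pos
  have h2 := h.bound hc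
  have h3 := tendsto_natCast_atTop_atTop.eventually h2
  filter_upwards [h3, eventually_ge_atTop 1] with n hn h1
  have hl : 0 ≤ Real.log n := Real.log_nonneg (by exact_mod_cast h1)
  rw [Real.rpow_natCast, Real.rpow_one, Real.norm_of_nonneg (pow_nonneg hl k),
    Real.norm_of_nonneg (Nat.cast_nonneg n)] at hn
  exact hn

theorem tend_log_pow_rpow (k : ℕ) (e c : ℝ) (he : 0 < e) (hc : 0 < c) :
    ∀ᶠ n : ℕ in atTop, Real.log n ^ k ≤ c * (n : ℝ) ^ e := by
  have h : (fun x : ℝ => Real.log x ^ (k : ℝ)) =o[atTop] fun x => x ^ e :=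
    isLittleO_log_rpow_rpow_atTop (k : ℝ) he
  have h2 := h.bound hc
  have h3 := tendsto_natCast_atTop_atTop.eventually h2
  filter_upwards [h3, eventually_ge_atTop 1] with n hn h1
  have hl : 0 ≤ Real.log n := Real.log_nonneg (by exact_mod_cast h1)
  rw [Real.rpow_natCast, Real.norm_of_nonneg (pow_nonneg hl k),
    Real.norm_of_nonneg (Real.rpow_nonneg (Nat.cast_nonneg n) e)] at hn
  exact hn

theorem tend_log (c : ℝ) : ∀ᶠ n : ℕ in atTop, c ≤ Real.log n :=
  (Real.tendsto_log_atTop.comp tendsto_natCast_atTop_atTop).eventually_ge_atTop c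

/-- the numerical facts about `n` which are used -/
theorem numerics (m M : ℝ) (hm : 0 < m) (hM : 0 ≤ M) :
    ∀ᶠ n : ℕ in atTop, 6 ≤ n ∧ 100 ≤ Real.log n ∧ 4 * m ≤ 1 / Real.log n * n ∧
      4 * (n : ℝ) ^ (-(16 / 10) : ℝ) * (1000 * (n : ℝ) * Real.sqrt n) ≤ (1 / Real.log n) ^ 2 ∧
      2 * (10 + 4 * (M / m ^ 2)) * m / ((1 / Real.log n) ^ 2 * n) +
        32 * (n : ℝ) ^ (-(16 / 10) : ℝ) * (1000 * (n : ℝ) * Real.sqrt n) /
          (1 / Real.log n) ^ 3 ≤ 0.0001 ∧
      2 * (10 + 4 * (M / m ^ 2)) * m / ((1 / Real.log n) ^ 2 * n) +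
        32 * (1 / Real.log n ^ 6) * 2 / (1 / Real.log n) ^ 3 ≤ 0.0001 ∧
      5 * Real.log n / (n : ℝ) ^ (-(16 / 10) : ℝ) ≤ 0.0001 * (n : ℝ) ^ 2 * Real.log n ∧
      2 + 5 * Real.log n ^ 7 ≤ 0.00004 * n ∧
      3 + n * Real.sqrt (520 / Real.log n) ≤ 0.00005 * n := by
  have hK : 0 ≤ 2 * (10 + 4 * (M / m ^ 2)) * m := by positivity
  filter_upwards [eventually_ge_atTop 6, tend_log 100, tend_log_pow 1 (1 / (4 * m + 1)) (by positivity),
    tend_log_pow_rpow 3 (1 / 10) (1 / 10 ^ 10) (by norm_num) (by norm_num),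
    tend_log_pow 2 (0.00001 / (2 * (10 + 4 * (M / m ^ 2)) * m + 1)) (by positivity),
    tend_log 10000000, tend_log_pow 7 (0.000001) (by norm_num),
    tend_log (520 * 10 ^ 20), tendsto_natCast_atTop_atTop.eventually_ge_atTop (10 ^ 30 : ℝ),
    tend_log_pow_rpow 0 (4 / 10) (0.00001) (by norm_num) (by norm_num)]
    with n h6 hl100 h1 h3 h2 hl7 h7 hl20 hn30 h04
  have hn : (0 : ℝ) < n := by exact_mod_cast (by omega : 0 < n)
  set L := Real.log n with hL
  have hLpos : 0 < L := by linarith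
  have hsq : (n : ℝ) * Real.sqrt n = (n : ℝ) ^ (15 / 10 : ℝ) := by
    rw [Real.sqrt_eq_rpow]
    nth_rewrite 1 [← Real.rpow_one (n : ℝ)]
    rw [← Real.rpow_add hn]; norm_num
  have h16 : (n : ℝ) ^ (-(16 / 10) : ℝ) * (1000 * (n : ℝ) * Real.sqrt n) =
      1000 * (n : ℝ) ^ (-(1 / 10) : ℝ) := by
    have : 1000 * (n : ℝ) * Real.sqrt n = 1000 * (n : ℝ) ^ (15 / 10 : ℝ) := by rw [← hsq]; ring
    rw [this]
    have e : (n : ℝ) ^ (-(1 / 10) : ℝ) = (n : ℝ) ^ (-(16 / 10) : ℝ) * (n : ℝ) ^ (15 / 10 : ℝ) := by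
      rw [← Real.rpow_add hn]; norm_num
    rw [e]; ring
  have hx : 0 < (n : ℝ) ^ (1 / 10 : ℝ) := Real.rpow_pos_of_pos hn _
  have hinv : (n : ℝ) ^ (-(1 / 10) : ℝ) = 1 / (n : ℝ) ^ (1 / 10 : ℝ) := by
    rw [Real.rpow_neg hn.le]; exact (one_div _).symm
  have hL3 : L ^ 3 * (n : ℝ) ^ (-(1 / 10) : ℝ) ≤ 1 / 10 ^ 10 := by
    rw [hinv, mul_one_div, div_le_iff₀ hx]; exact h3
  have hy : 0 ≤ (n : ℝ) ^ (-(1 / 10) : ℝ) := Real.rpow_nonneg hn.le _
  have hL2 : L ^ 2 * (n : ℝ) ^ (-(1 / 10) : ℝ) ≤ 1 / 10 ^ 10 := by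
    refine le_trans ?_ hL3
    refine mul_le_mul_of_nonneg_right ?_ hy
    exact pow_le_pow_right₀ (by linarith) (by norm_num)
  refine ⟨h6, hl100, ?_, ?_, ?_, ?_, ?_, ?_, ?_⟩
  · rw [pow_one] at h1
    rw [one_div, inv_mul_eq_div, le_div_iff₀ hLpos]
    have : 4 * m * L ≤ 4 * m * (1 / (4 * m + 1) * n) := mul_le_mul_of_nonneg_left h1 (by linarith)
    refine le_trans this ?_
    have e : 4 * m * (1 / (4 * m + 1) * n) = n * (4 * m / (4 * m + 1)) := by ring
    rw [e]
    have : 4 * m / (4 * m + 1) ≤ 1 := by rw [div_le_one (by linarith)]; linarith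
    nlinarith
  · rw [mul_assoc, h16, div_pow, one_pow, le_div_iff₀ (by positivity)]
    nlinarith
  · have e1 : 2 * (10 + 4 * (M / m ^ 2)) * m / ((1 / L) ^ 2 * n) ≤ 0.00001 := by
      rw [div_le_iff₀ (by positivity)]
      have : (0.00001 : ℝ) * ((1 / L) ^ 2 * n) = 0.00001 * n / L ^ 2 := by field_simp
      rw [this, le_div_iff₀ (by positivity)]
      calc 2 * (10 + 4 * (M / m ^ 2)) * m * L ^ 2
          ≤ (2 * (10 + 4 * (M / m ^ 2)) * m) * (0.00001 / (2 * (10 + 4 * (M / m ^ 2)) * m + 1) * n) :=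
            mul_le_mul_of_nonneg_left h2 hK
        _ = 0.00001 * n * ((2 * (10 + 4 * (M / m ^ 2)) * m) /
              (2 * (10 + 4 * (M / m ^ 2)) * m + 1)) := by ring
        _ ≤ 0.00001 * n * 1 := by
            refine mul_le_mul_of_nonneg_left ?_ (by positivity)
            rw [div_le_one (by linarith)]; linarith
        _ = _ := by ring
    have e2 : 32 * (n : ℝ) ^ (-(16 / 10) : ℝ) * (1000 * (n : ℝ) * Real.sqrt n) / (1 / L) ^ 3 ≤
        0.00001 := by
      rw [mul_assoc, h16, div_pow, one_pow, div_div_eq_mul_div, div_one]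
      nlinarith
    linarith
  · have e1 : 2 * (10 + 4 * (M / m ^ 2)) * m / ((1 / L) ^ 2 * n) ≤ 0.00001 := by
      rw [div_le_iff₀ (by positivity)]
      have : (0.00001 : ℝ) * ((1 / L) ^ 2 * n) = 0.00001 * n / L ^ 2 := by field_simp
      rw [this, le_div_iff₀ (by positivity)]
      calc 2 * (10 + 4 * (M / m ^ 2)) * m * L ^ 2
          ≤ (2 * (10 + 4 * (M / m ^ 2)) * m) * (0.00001 / (2 * (10 + 4 * (M / m ^ 2)) * m + 1) * n) :=
            mul_le_mul_of_nonneg_left h2 hK
        _ = 0.00001 * n * ((2 * (10 + 4 * (M / m ^ 2)) * m) /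
              (2 * (10 + 4 * (M / m ^ 2)) * m + 1)) := by ring
        _ ≤ 0.00001 * n * 1 := by
            refine mul_le_mul_of_nonneg_left ?_ (by positivity)
            rw [div_le_one (by linarith)]; linarith
        _ = _ := by ring
    have e2 : 32 * (1 / L ^ 6) * 2 / (1 / L) ^ 3 = 64 / L ^ 3 := by field_simp; ring
    have e3 : 64 / L ^ 3 ≤ 0.00001 := by
      rw [div_le_iff₀ (by positivity)]
      have : L ≤ L ^ 3 := by
        calc L = L ^ 1 := (pow_one L).symm
          _ ≤ L ^ 3 := pow_le_pow_right₀ (by linarith) (by norm_num)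
      nlinarith
    rw [e2]; linarith
  · rw [pow_zero] at h04
    have e : (n : ℝ) ^ (-(16 / 10) : ℝ) = 1 / (n : ℝ) ^ (16 / 10 : ℝ) := by
      rw [Real.rpow_neg hn.le, one_div]
    have e2 : (n : ℝ) ^ (2 : ℕ) = (n : ℝ) ^ (16 / 10 : ℝ) * (n : ℝ) ^ (4 / 10 : ℝ) := by
      rw [← Real.rpow_add hn, ← Real.rpow_natCast]; norm_num
    rw [e, e2, div_div_eq_mul_div, div_one]
    have hp : 0 < (n : ℝ) ^ (16 / 10 : ℝ) := Real.rpow_pos_of_pos hn _
    have : 5 ≤ 0.0001 * (n : ℝ) ^ (4 / 10 : ℝ) := by linarith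
    calc 5 * L * (n : ℝ) ^ (16 / 10 : ℝ) = 5 * (L * (n : ℝ) ^ (16 / 10 : ℝ)) := by ring
      _ ≤ (0.0001 * (n : ℝ) ^ (4 / 10 : ℝ)) * (L * (n : ℝ) ^ (16 / 10 : ℝ)) :=
          mul_le_mul_of_nonneg_right this (by positivity)
      _ = _ := by ring
  · linarith
  · have : Real.sqrt (520 / L) ≤ 0.0000000001 := by
      rw [Real.sqrt_le_left (by norm_num), div_le_iff₀ hLpos]
      norm_num at *
      linarith
    nlinarith

theorem card_Om (n : ℕ) : (Om n).card ≤ 6 * n ^ 4 := by
  unfold Om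
  refine le_trans (card_filter_le _ _) ?_
  rw [card_product, card_product, card_range, card_range]
  apply le_of_eq; ring

theorem rho_nonneg {n t : ℕ} (ht : t < n ^ 2) : 0 ≤ rho n t := by
  have := (rho_bounds n t ht).1
  linarith

theorem gline_sub (n a b : ℕ) : gline n a b ⊆ range (n ^ 2) := fun x hx =>
  mem_range.2 (mem_gline.1 hx).1

theorem ghalf_sub (n a b : ℕ) : ghalf n a b ⊆ gline n a b := by
  unfold ghalf; exact filter_subset _ _

/-- increments of the functionals -/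
theorem delta_O (n M : ℕ) (t : ℕ × ℕ × ℕ) (ht : t ∈ Om n) (V C : Finset ℕ)
    (hV : V ⊆ range (n ^ 2)) (hC : C ⊆ V) (hN : NoThree n C) :
    XX (OQ n M t) (Oc n t) V - XX (OQ n M t) (Oc n t) (V \ C) ≤ OD n t := by
  obtain ⟨⟨h6, h1, h2⟩, h3⟩ := mem_Om.1 ht
  by_cases c0 : t.1 = 0
  · have e1 := XX_O n M t ht V hV
    have e2 := XX_O n M t ht (V \ C) (sdiff_subset.trans hV)
    rw [if_pos c0] at e1 e2
    rw [e1, e2]
    unfold OD; rw [if_pos (by omega)]
    exact delta_up n M t.2.1 h1 V C hV hC hN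
  by_cases c1 : t.1 = 1
  · have e1 := XX_O n M t ht V hV
    have e2 := XX_O n M t ht (V \ C) (sdiff_subset.trans hV)
    rw [if_neg c0, if_pos c1] at e1 e2
    rw [e1, e2, image_sdiff_mir hV hC]
    unfold OD; rw [if_pos (by omega)]
    exact delta_up n M t.2.1 h1 (V.image (mir n)) (C.image (mir n)) (fi_image_mir_sub hV)
      (image_subset_image hC) (noThree_image (hC.trans hV) hN)
  have e2' : Oc n t = (fun _ => 1) := by
    funext q; unfold Oc; rw [if_neg c0, if_neg c1]
  by_cases c2 : t.1 = 2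
  · have e1 := XX_O n M t ht V hV
    have e2 := XX_O n M t ht (V \ C) (sdiff_subset.trans hV)
    rw [if_neg c0, if_neg c1, if_pos c2] at e1 e2
    rw [e1, e2]
    unfold OD; rw [if_pos (by omega)]
    exact delta_full n t.2.1 h1 V C hV hC hN
  have hne := h3 (by omega)
  unfold OD; rw [if_neg (by omega), e2']
  by_cases c3 : t.1 = 3
  · unfold OQ; rw [if_neg c0, if_neg c1, if_neg c2, if_pos c3]
    exact delta_line n t.2.1 t.2.2 hne V C _ hV hC hN (Subset.refl _)
  by_cases c4 : t.1 = 4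
  · unfold OQ; rw [if_neg c0, if_neg c1, if_neg c2, if_neg c3, if_pos c4]
    exact delta_line n t.2.1 t.2.2 hne V C _ hV hC hN (ghalf_sub _ _ _)
  · unfold OQ; rw [if_neg c0, if_neg c1, if_neg c2, if_neg c3, if_neg c4]
    refine delta_line n (mir n t.2.1) (mir n t.2.2) (fun h => hne (fi_mir_inj h1 h2 h)) V C _ hV hC
      hN ?_
    intro x hx
    obtain ⟨y, hy, rfl⟩ := mem_image.1 hx
    have hy' := mem_gline.1 (ghalf_sub _ _ _ hy)
    rw [mem_gline]
    exact ⟨mir_lt n y hy'.1, by rw [det3_mir n _ _ _ h1 h2 hy'.1, hy'.2]; rfl⟩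

theorem Ob_nonneg {n : ℕ} (hL : 0 ≤ Real.log n) (t : ℕ × ℕ × ℕ) : 0 ≤ Ob n t := by
  unfold Ob; split_ifs <;> positivity

/-- the colouring of the grid -/
theorem colouring : ∃ n0 : ℕ, ∀ n ≥ n0, ∃ (k : ℕ) (f : ℕ → ℕ), (k : ℝ) ≤ 7 / 10 * n ∧
    (∀ v < n ^ 2, f v < k) ∧ ∀ i < k, NoThree n ((range (n ^ 2)).filter (fun v => f v = i)) := by
  obtain ⟨M, hM, C4, hC4, n1, hdist⟩ := dist_all (1 / 10 ^ 5) (by norm_num) (by norm_num)
  obtain ⟨n2, hNT⟩ := NT4
  set m : ℝ := (1 - 1 / 10 ^ 5) * (14287 / 10000) with hm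
  have hmpos : 0 < m := by rw [hm]; norm_num
  obtain ⟨n3, hnum⟩ := eventually_atTop.1 (numerics m C4 hmpos hC4.le)
  refine ⟨max n1 (max n2 n3), fun n hn => ?_⟩
  have hn1 : n1 ≤ n := le_trans (le_max_left _ _) hn
  have hn2 : n2 ≤ n := le_trans (le_trans (le_max_left _ _) (le_max_right _ _)) hn
  have hn3 : n3 ≤ n := le_trans (le_trans (le_max_right _ _) (le_max_right _ _)) hn
  obtain ⟨h6, hL100, q1, q2, q3, q4, q5, q6, q7⟩ := hnum n hn3
  set L := Real.log n with hLdef
  have hLpos : 0 < L := by linarith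
  have hnpos : (0 : ℝ) < n := by exact_mod_cast (by omega : 0 < n)
  have hn2' : 0 < n ^ 2 := by positivity
  -- the nibble
  obtain ⟨J, Cs, hJ, hCs, hX⟩ := nibble (range (n ^ 2)) (NoThree n) (Om n) (OQ n M) (Oc n) Or
    (OD n) (Oa n) (Ob n) n m C4 (1 / L) hnpos hmpos hC4.le (by positivity)
    (by rw [div_le_one hLpos]; linarith) q1
    (by
      intro t ht
      obtain ⟨⟨ht6, h1, h2⟩, h3⟩ := mem_Om.1 ht
      by_cases c0 : t.1 = 0
      · refine Or.inr ⟨by unfold Or; rw [if_pos (by omega)], ?_⟩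
        unfold OQ; rw [if_pos c0]
        intro q hq
        unfold Qup at hq
        exact (ne_of_lt (mem_filter.1 hq).2.1)
      by_cases c1 : t.1 = 1
      · refine Or.inr ⟨by unfold Or; rw [if_pos (by omega)], ?_⟩
        unfold OQ; rw [if_neg c0, if_pos c1]
        intro q hq
        obtain ⟨q', hq', rfl⟩ := mem_image.1 hq
        have hlt := Qup_lt h1 q' hq'
        unfold Qup at hq'
        intro h
        exact (ne_of_lt (mem_filter.1 hq').2.1) (fi_mir_inj hlt.1 hlt.2 h)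
      by_cases c2 : t.1 = 2
      · refine Or.inr ⟨by unfold Or; rw [if_pos (by omega)], ?_⟩
        unfold OQ; rw [if_neg c0, if_neg c1, if_pos c2]
        intro q hq
        unfold Qfull at hq
        exact (ne_of_lt (mem_filter.1 hq).2.1)
      · refine Or.inl ⟨by unfold Or; rw [if_neg (by omega)], ?_⟩
        unfold OQ; rw [if_neg c0, if_neg c1, if_neg c2]
        intro q hq
        have : ∀ s : Finset ℕ, q ∈ Qd s → q.1 = q.2 := by
          intro s hs
          unfold Qd at hs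
          obtain ⟨z, _, rfl⟩ := mem_image.1 hs
          rfl
        split_ifs at hq
        · exact this _ hq
        · exact this _ hq
        · exact this _ hq)
    (by
      intro t ht q hq
      obtain ⟨⟨ht6, h1, h2⟩, h3⟩ := mem_Om.1 ht
      unfold Oc
      by_cases c0 : t.1 = 0
      · rw [if_pos c0]
        unfold OQ at hq; rw [if_pos c0] at hq
        have := Qup_lt h1 q hq
        exact mul_nonneg (rho_nonneg this.1) (rho_nonneg this.2)
      by_cases c1 : t.1 = 1
      · rw [if_neg c0, if_pos c1]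
        unfold OQ at hq; rw [if_neg c0, if_pos c1] at hq
        obtain ⟨q', hq', rfl⟩ := mem_image.1 hq
        have hlt := Qup_lt h1 q' hq'
        unfold rr2 mir2
        simp only
        rw [mir_mir n _ hlt.1, mir_mir n _ hlt.2]
        exact mul_nonneg (rho_nonneg hlt.1) (rho_nonneg hlt.2)
      · rw [if_neg c0, if_neg c1]; norm_num)
    (by
      intro t _
      unfold Oa
      split_ifs
      · exact Real.rpow_pos_of_pos hnpos _
      · positivity)
    (by intro t _; unfold OD; split_ifs <;> positivity)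
    (by intro t _; exact Ob_nonneg hLpos.le t)
    (by intro t ht V hV C hC hN; exact delta_O n M t ht V C hV hC hN)
    (by
      intro t _
      unfold Oa OD
      split_ifs
      · exact q2
      · rw [div_pow, one_pow]
        have : 4 * (1 / L ^ 6) * 2 = 8 / L ^ 6 := by ring
        rw [this, div_le_div_iff₀ (by positivity) (by positivity)]
        have e : L ^ 6 = L ^ 4 * L ^ 2 := by ring
        rw [one_mul, e]
        refine mul_le_mul_of_nonneg_right ?_ (by positivity)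
        calc (8 : ℝ) ≤ 100 ^ 4 := by norm_num
          _ ≤ L ^ 4 := pow_le_pow_left₀ (by norm_num) hL100 4)
    (by
      intro t ht
      obtain ⟨⟨ht6, h1, h2⟩, h3⟩ := mem_Om.1 ht
      have hlogΩ : Real.log (Om n).card ≤ 5 * L := by
        rcases Nat.eq_zero_or_pos (Om n).card with h0 | h0
        · rw [h0]; simp only [Nat.cast_zero, Real.log_zero]; linarith
        · calc Real.log (Om n).card ≤ Real.log ((n : ℝ) ^ 5) := by
                apply Real.log_le_log (by exact_mod_cast h0)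
                have : ((Om n).card : ℝ) ≤ 6 * (n : ℝ) ^ 4 := by exact_mod_cast card_Om n
                refine le_trans this ?_
                have h6' : (6 : ℝ) ≤ n := by exact_mod_cast h6
                calc 6 * (n : ℝ) ^ 4 ≤ n * (n : ℝ) ^ 4 :=
                      mul_le_mul_of_nonneg_right h6' (by positivity)
                  _ = (n : ℝ) ^ 5 := by ring
            _ = 5 * L := by rw [Real.log_pow, hLdef]; norm_num
      have hU := XX_O n M t ht (range (n ^ 2)) (Subset.refl _)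
      rw [hU]
      by_cases c012 : t.1 ≤ 2
      · have ea : Oa n t = (n : ℝ) ^ (-(16 / 10) : ℝ) := by unfold Oa; rw [if_pos c012]
        have ed : OD n t = 1000 * (n : ℝ) * Real.sqrt n := by unfold OD; rw [if_pos c012]
        rw [ea, ed]
        have hlog : Real.log (Om n).card / (n : ℝ) ^ (-(16 / 10) : ℝ) ≤
            0.0001 * (n : ℝ) ^ 2 * L :=
          le_trans (div_le_div_of_nonneg_right hlogΩ (Real.rpow_nonneg hnpos.le _)) q5
        have hnl : 0 < (n : ℝ) ^ 2 * L := by positivity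
        set F := 2 * (10 + 4 * (C4 / m ^ 2)) * m / ((1 / L) ^ 2 * n) +
          32 * (n : ℝ) ^ (-(16 / 10) : ℝ) * (1000 * (n : ℝ) * Real.sqrt n) / (1 / L) ^ 3 with hF
        by_cases c0 : t.1 = 0
        · rw [if_pos c0]
          have eb : Ob n t = 0.9984 * (n : ℝ) ^ 2 * L := by unfold Ob; rw [if_pos c0]
          rw [eb]
          have h := hNT n hn2 M hM t.2.1 h1
          have h' : XX (Qup n M t.2.1) (rr2 n) (range (n ^ 2)) ≤ 0.998 * (n : ℝ) ^ 2 * L := h
          nlinarith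
        by_cases c1 : t.1 = 1
        · rw [if_neg c0, if_pos c1, image_mir_range]
          have eb : Ob n t = 0.9984 * (n : ℝ) ^ 2 * L := by
            unfold Ob; rw [if_neg c0, if_pos c1]
          rw [eb]
          have h := hNT n hn2 M hM t.2.1 h1
          have h' : XX (Qup n M t.2.1) (rr2 n) (range (n ^ 2)) ≤ 0.998 * (n : ℝ) ^ 2 * L := h
          nlinarith
        · have c2 : t.1 = 2 := by omega
          rw [if_neg c0, if_neg c1, if_pos c2]
          have eb : Ob n t = 65 * (n : ℝ) ^ 2 * L := by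
            unfold Ob; rw [if_neg c0, if_neg c1, if_pos c2]
          rw [eb]
          have h := Qfull_init n t.2.1 (by omega) h1
          nlinarith
      · have ea : Oa n t = 1 / L ^ 6 := by unfold Oa; rw [if_neg c012]
        have ed : OD n t = 2 := by unfold OD; rw [if_neg c012]
        rw [ea, ed]
        have hne := h3 (by omega)
        have hlog : Real.log (Om n).card / (1 / L ^ 6) ≤ 5 * L ^ 7 := by
          rw [div_div_eq_mul_div, div_one]
          calc Real.log (Om n).card * L ^ 6 ≤ 5 * L * L ^ 6 :=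
                mul_le_mul_of_nonneg_right hlogΩ (by positivity)
            _ = 5 * L ^ 7 := by ring
        set F := 2 * (10 + 4 * (C4 / m ^ 2)) * m / ((1 / L) ^ 2 * n) +
          32 * (1 / L ^ 6) * 2 / (1 / L) ^ 3 with hF
        rw [if_neg (by omega), if_neg (by omega), if_neg (by omega)]
        have hg : range (n ^ 2) ∩ gline n t.2.1 t.2.2 = gline n t.2.1 t.2.2 :=
          inter_eq_right.2 (gline_sub _ _ _)
        have hh : range (n ^ 2) ∩ ghalf n t.2.1 t.2.2 = ghalf n t.2.1 t.2.2 :=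
          inter_eq_right.2 ((ghalf_sub _ _ _).trans (gline_sub _ _ _))
        rw [image_mir_range, hg, hh]
        have hhalf := card_ghalf n t.2.1 t.2.2 hne h1 h2
        by_cases c3 : t.1 = 3
        · rw [if_pos c3]
          have eb : Ob n t = 2 * (gline n t.2.1 t.2.2).card + L ^ 8 := by
            unfold Ob
            rw [if_neg (by omega), if_neg (by omega), if_neg (by omega), if_pos c3]
          rw [eb]
          have hg0 : (0 : ℝ) ≤ (gline n t.2.1 t.2.2).card := Nat.cast_nonneg _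
          have hL8 : 100 * L ^ 7 ≤ L ^ 8 := by
            have : L ^ 8 = L * L ^ 7 := by ring
            rw [this]
            exact mul_le_mul_of_nonneg_right hL100 (by positivity)
          have hL7 : 0 < L ^ 7 := by positivity
          nlinarith
        · rw [if_neg c3]
          have eb : Ob n t = 0.5001 * n := by
            unfold Ob
            rw [if_neg (by omega), if_neg (by omega), if_neg (by omega), if_neg c3]
          rw [eb, ite_self]
          nlinarith)
    (by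
      intro q hq0 hq1 V hV hreg
      have hget : ∀ t ∈ Om n, XX (OQ n M t) (Oc n t) V ≤ q ^ Or t * Ob n t := hreg
      obtain ⟨W, w1, w2, w3, w4, w5⟩ := hdist n hn1 V hV q hq0 hq1
        (by
          intro a ha b hb hab
          constructor
          · have ht : ((4, a, b) : ℕ × ℕ × ℕ) ∈ Om n := mem_Om.2 ⟨⟨by norm_num, ha, hb⟩,
              fun _ => hab⟩
            have h := hget _ ht
            rw [XX_O n M _ ht V hV] at h
            simpa [Or, Ob] using h
          · have ht : ((5, a, b) : ℕ × ℕ × ℕ) ∈ Om n := mem_Om.2 ⟨⟨by norm_num, ha, hb⟩,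
              fun _ => hab⟩
            have h := hget _ ht
            rw [XX_O n M _ ht V hV] at h
            simpa [Or, Ob] using h)
        (by
          intro a ha b hb hab
          have ht : ((3, a, b) : ℕ × ℕ × ℕ) ∈ Om n := mem_Om.2 ⟨⟨by norm_num, ha, hb⟩,
              fun _ => hab⟩
          have h := hget _ ht
          rw [XX_O n M _ ht V hV] at h
          simpa [Or, Ob] using h)
        (by
          intro w hw
          constructor
          · have ht : ((0, w, 0) : ℕ × ℕ × ℕ) ∈ Om n := mem_Om.2 ⟨⟨by norm_num, hw, hn2'⟩,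
              fun h => by norm_num at h⟩
            have h := hget _ ht
            rw [XX_O n M _ ht V hV] at h
            show XX (Qup n M w) (rr2 n) V ≤ _
            simpa [Or, Ob] using h
          · have ht : ((1, w, 0) : ℕ × ℕ × ℕ) ∈ Om n := mem_Om.2 ⟨⟨by norm_num, hw, hn2'⟩,
              fun h => by norm_num at h⟩
            have h := hget _ ht
            rw [XX_O n M _ ht V hV] at h
            show XX (Qup n M w) (rr2 n) (V.image (mir n)) ≤ _
            simpa [Or, Ob] using h)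
      exact ⟨W, w1, w2, w3, w4, w5⟩)
  -- the leftover
  set Ve := range (n ^ 2) \ (range J).biUnion Cs with hVe
  have hVesub : Ve ⊆ range (n ^ 2) := sdiff_subset
  set T : Finset (Finset ℕ) := (powersetCard 3 (range (n ^ 2))).filter
    (fun e => ∃ a b c, a ≠ b ∧ b ≠ c ∧ a ≠ c ∧ e = {a, b, c} ∧ det3 n a b c = 0) with hT
  set D : ℕ := ⌊65 * (n : ℝ) ^ 2 / L⌋₊ with hD
  set k : ℕ := ⌈Real.sqrt (8 * D)⌉₊ + 1 with hk
  have hDk : 8 * D ≤ k ^ 2 := by
    have h1 : Real.sqrt (8 * D) ≤ k := by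
      rw [hk]; push_cast
      have := Nat.le_ceil (Real.sqrt (8 * D))
      linarith
    have h2 : (8 * D : ℝ) ≤ (k : ℝ) ^ 2 := by
      calc (8 * D : ℝ) = Real.sqrt (8 * D) ^ 2 := (Real.sq_sqrt (by positivity)).symm
        _ ≤ (k : ℝ) ^ 2 := pow_le_pow_left₀ (Real.sqrt_nonneg _) h1 2
    exact_mod_cast h2
  obtain ⟨g, hg1, hg2⟩ := rosenfeld Ve T
    (fun e he => (mem_powersetCard.1 (mem_filter.1 he).1).2) D k (by rw [hk]; omega)
    (by
      intro w hw
      have hw' : w < n ^ 2 := mem_range.1 (hVesub hw)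
      have h1 := triples n w Ve hVesub hw T (fun e he => (mem_filter.1 he).2)
      have ht : ((2, w, 0) : ℕ × ℕ × ℕ) ∈ Om n := mem_Om.2 ⟨⟨by norm_num, hw', hn2'⟩,
              fun h => by norm_num at h⟩
      have h := hX _ ht
      rw [XX_O n M _ ht Ve hVesub] at h
      have h' : XX (Qfull n w) (fun _ => 1) Ve ≤ (1 / L) ^ 2 * (65 * (n : ℝ) ^ 2 * L) := by
        simpa [Or, Ob] using h
      have e : (1 / L) ^ 2 * (65 * (n : ℝ) ^ 2 * L) = 65 * (n : ℝ) ^ 2 / L := by
        field_simp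
      rw [e] at h'
      exact Nat.le_floor (le_trans h1 h')) hDk
  -- the colouring
  refine ⟨J + k, fun v => if h : ∃ j, j < J ∧ v ∈ Cs j then Nat.find h else J + g v, ?_, ?_, ?_⟩
  · push_cast
    have hkb : (k : ℝ) ≤ n * Real.sqrt (520 / L) + 2 := by
      rw [hk]; push_cast
      have h1 : (⌈Real.sqrt (8 * D)⌉₊ : ℝ) ≤ Real.sqrt (8 * D) + 1 :=
        (Nat.ceil_lt_add_one (Real.sqrt_nonneg _)).le
      have h2 : Real.sqrt (8 * D) ≤ n * Real.sqrt (520 / L) := by
        have hDle : (D : ℝ) ≤ 65 * (n : ℝ) ^ 2 / L := Nat.floor_le (by positivity)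
        calc Real.sqrt (8 * D) ≤ Real.sqrt ((n : ℝ) ^ 2 * (520 / L)) := by
              apply Real.sqrt_le_sqrt
              calc (8 * D : ℝ) ≤ 8 * (65 * (n : ℝ) ^ 2 / L) := by linarith
                _ = (n : ℝ) ^ 2 * (520 / L) := by ring
          _ = n * Real.sqrt (520 / L) := by
              rw [Real.sqrt_mul (by positivity), Real.sqrt_sq hnpos.le]
      linarith
    have hJb : (J : ℝ) ≤ 0.69995 * n + 1 := by
      refine le_trans hJ ?_
      have : (1 - 1 / L) * n / m ≤ 0.69995 * n := by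
        rw [div_le_iff₀ hmpos]
        have h1 : (1 - 1 / L) * n ≤ n := by
          have : 0 ≤ 1 / L * n := by positivity
          linarith
        have h2 : (n : ℝ) ≤ 0.69995 * n * m := by
          rw [hm]; nlinarith
        linarith
      linarith
    linarith
  · intro v _
    by_cases h : ∃ j, j < J ∧ v ∈ Cs j
    · simp only [h, dif_pos]
      have := (Nat.find_spec h).1
      omega
    · simp only [h, dif_neg, not_false_iff]
      have := hg1 v
      omega
  · intro i hi a ha b hb c hc hab hbc hac hdet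
    rw [mem_filter, mem_range] at ha hb hc
    by_cases hiJ : i < J
    · have key : ∀ v, (if h : ∃ j, j < J ∧ v ∈ Cs j then Nat.find h else J + g v) = i →
          v ∈ Cs i := by
        intro v hv
        by_cases h : ∃ j, j < J ∧ v ∈ Cs j
        · rw [dif_pos h] at hv
          have := (Nat.find_spec h).2
          rwa [hv] at this
        · rw [dif_neg h] at hv; omega
      exact hCs i hiJ a (key a ha.2) b (key b hb.2) c (key c hc.2) hab hbc hac hdet
    · have key : ∀ v, v < n ^ 2 → (if h : ∃ j, j < J ∧ v ∈ Cs j then Nat.find h else J + g v) = i →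
          v ∈ Ve ∧ g v = i - J := by
        intro v hvn hv
        by_cases h : ∃ j, j < J ∧ v ∈ Cs j
        · rw [dif_pos h] at hv
          have := (Nat.find_spec h).1
          omega
        · rw [dif_neg h] at hv
          refine ⟨?_, by omega⟩
          rw [hVe, Finset.mem_sdiff, mem_range, mem_biUnion]
          refine ⟨hvn, ?_⟩
          rintro ⟨j, hj, hj'⟩
          exact h ⟨j, mem_range.1 hj, hj'⟩
      obtain ⟨ka, ga⟩ := key a ha.1 ha.2
      obtain ⟨kb, gb⟩ := key b hb.1 hb.2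
      obtain ⟨kc, gc⟩ := key c hc.1 hc.2
      have hsub : ({a, b, c} : Finset ℕ) ⊆ Ve := by
        intro x hx
        rw [mem_insert, mem_insert, mem_singleton] at hx
        rcases hx with rfl | rfl | rfl <;> assumption
      have he : ({a, b, c} : Finset ℕ) ∈ T := by
        rw [hT, mem_filter, mem_powersetCard]
        refine ⟨⟨hsub.trans hVesub, card_eq_three.2 ⟨a, b, c, hab, hac, hbc, rfl⟩⟩,
          a, b, c, hab, hbc, hac, rfl, hdet⟩
      obtain ⟨x, hx, y, hy, hxy⟩ := hg2 _ he hsub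
      have hall : ∀ z ∈ ({a, b, c} : Finset ℕ), g z = i - J := by
        intro z hz
        rw [mem_insert, mem_insert, mem_singleton] at hz
        rcases hz with rfl | rfl | rfl <;> assumption
      exact hxy (by rw [hall x hx, hall y hy])

end

end GPG
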