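import Pool.Agent.Helper96.GP.Defs

/-!
# The grid: points `t < n ^ 2`, coordinates `(t % n, t / n)`
-/

open Finset
open scoped Classical

namespace GPG

noncomputable section

def px (n t : ℕ) : ℤ := ((t % n : ℕ) : ℤ)
def py (n t : ℕ) : ℤ := ((t / n : ℕ) : ℤ)

/-- twice the signed area of the triangle `a, b, c` -/
def det3 (n a b c : ℕ) : ℤ :=
  (px n b - px n a) * (py n c - py n a) - (px n c - px n a) * (py n b - py n a)

def gg (n a b : ℕ) : ℕ := Int.gcd (px n b - px n a) (py n b - py n a)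

def DD (n a b : ℕ) : ℕ := max (px n b - px n a).natAbs (py n b - py n a).natAbs

/-- sup norm of the primitive direction of the line `a b` -/
def pd (n a b : ℕ) : ℕ := DD n a b / gg n a b

/-- first half of the line of `a, b`, with respect to its dominant coordinate -/
def hf (n a b c : ℕ) : Prop :=
  if (px n b - px n a).natAbs ≤ (py n b - py n a).natAbs then 2 * py n c < n else 2 * px n c < n

def gline (n a b : ℕ) : Finset ℕ := (range (n ^ 2)).filter (fun c => det3 n a b c = 0)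

def ghalf (n a b : ℕ) : Finset ℕ := (gline n a b).filter (fun c => (hf n a b c ↔ hf n a b a))

/-- lines of the space `gridLS` -/
def gls (n : ℕ) (V : Finset ℕ) (M : ℕ) : Finset (Finset ℕ) :=
  (((V ×ˢ V).filter (fun q => q.1 ≠ q.2 ∧ M < pd n q.1 q.2)).image
    (fun q => V ∩ gline n q.1 q.2)) ∪
  (((V ×ˢ V).filter (fun q => q.1 ≠ q.2 ∧ pd n q.1 q.2 ≤ M ∧
    (hf n q.1 q.2 q.2 ↔ hf n q.1 q.2 q.1))).image (fun q => V ∩ ghalf n q.1 q.2))

def gpre (n M : ℕ) (i : Finset ℕ) : Prop := ∃ a ∈ i, ∃ b ∈ i, a ≠ b ∧ pd n a b ≤ M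

theorem px_py_inj {n a b : ℕ} (h1 : px n a = px n b) (h2 : py n a = py n b) : a = b := by
  have e1 : a % n = b % n := by unfold px at h1; exact_mod_cast h1
  have e2 : a / n = b / n := by unfold py at h2; exact_mod_cast h2
  rw [← Nat.mod_add_div a n, ← Nat.mod_add_div b n, e1, e2]

theorem gg_pos {n a b : ℕ} (h : a ≠ b) : 0 < gg n a b := by
  unfold gg
  rw [Nat.pos_iff_ne_zero]
  intro h0
  rw [Int.gcd_eq_zero_iff] at h0
  exact h (px_py_inj (by linarith [h0.1]) (by linarith [h0.2]))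

/-- two parallel nonzero vectors have the same primitive vector up to sign -/
theorem parallel_prim {x y x' y' : ℤ} (h : x * y' = x' * y) (h0 : x ≠ 0 ∨ y ≠ 0)
    (h0' : x' ≠ 0 ∨ y' ≠ 0) :
    (max x.natAbs y.natAbs) / Int.gcd x y = (max x'.natAbs y'.natAbs) / Int.gcd x' y' ∧
    (x.natAbs ≤ y.natAbs ↔ x'.natAbs ≤ y'.natAbs) := by
  have hg : 0 < Int.gcd x y := Int.gcd_pos_iff.2 h0
  have hg' : 0 < Int.gcd x' y' := Int.gcd_pos_iff.2 h0'
  obtain ⟨g, a, b, hgp, hcop, hx, hy⟩ := Int.exists_gcd_one' (m := x) (n := y) hg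
  obtain ⟨g', a', b', hgp', hcop', hx', hy'⟩ := Int.exists_gcd_one' (m := x') (n := y') hg'
  have hgz : (g : ℤ) ≠ 0 := by exact_mod_cast hgp.ne'
  have hgz' : (g' : ℤ) ≠ 0 := by exact_mod_cast hgp'.ne'
  have hab : a * b' = a' * b := by
    have : (g : ℤ) * g' * (a * b') = (g : ℤ) * g' * (a' * b) := by
      calc (g : ℤ) * g' * (a * b') = (a * g) * (b' * g') := by ring
        _ = x * y' := by rw [hx, hy']
        _ = x' * y := h
        _ = (a' * g') * (b * g) := by rw [hx', hy]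
        _ = (g : ℤ) * g' * (a' * b) := by ring
    exact mul_left_cancel₀ (mul_ne_zero hgz hgz') this
  have c1 : IsCoprime a b := Int.isCoprime_iff_gcd_eq_one.2 hcop
  have c2 : IsCoprime a' b' := Int.isCoprime_iff_gcd_eq_one.2 hcop'
  have d1 : a ∣ a' := c1.dvd_of_dvd_mul_right ⟨b', by linarith⟩
  have d2 : a' ∣ a := c2.dvd_of_dvd_mul_right ⟨b, by linarith⟩
  have d3 : b ∣ b' := c1.symm.dvd_of_dvd_mul_left ⟨a', by linarith⟩
  have d4 : b' ∣ b := c2.symm.dvd_of_dvd_mul_left ⟨a, by linarith⟩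
  have ea : a.natAbs = a'.natAbs := Nat.dvd_antisymm (Int.natAbs_dvd_natAbs.2 d1)
    (Int.natAbs_dvd_natAbs.2 d2)
  have eb : b.natAbs = b'.natAbs := Nat.dvd_antisymm (Int.natAbs_dvd_natAbs.2 d3)
    (Int.natAbs_dvd_natAbs.2 d4)
  have nx : x.natAbs = a.natAbs * g := by rw [hx, Int.natAbs_mul]; simp
  have ny : y.natAbs = b.natAbs * g := by rw [hy, Int.natAbs_mul]; simp
  have nx' : x'.natAbs = a.natAbs * g' := by rw [hx', Int.natAbs_mul, ea]; simp
  have ny' : y'.natAbs = b.natAbs * g' := by rw [hy', Int.natAbs_mul, eb]; simp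
  have gx : Int.gcd x y = g := by
    rw [hx, hy, Int.gcd_mul_right, hcop]; simp
  have gx' : Int.gcd x' y' = g' := by
    rw [hx', hy', Int.gcd_mul_right, hcop']; simp
  constructor
  · rw [gx, gx', nx, ny, nx', ny', Nat.mul_max_mul_right, Nat.mul_max_mul_right,
      Nat.mul_div_cancel _ hgp, Nat.mul_div_cancel _ hgp']
  · rw [nx, ny, nx', ny', Nat.mul_le_mul_right_iff hgp, Nat.mul_le_mul_right_iff hgp']

theorem det3_self1 (n a b : ℕ) : det3 n a b a = 0 := by unfold det3; ring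
theorem det3_self2 (n a b : ℕ) : det3 n a b b = 0 := by unfold det3; ring

/-- two points of a line determine it -/
theorem line_eq {n a b c d : ℕ} (hab : a ≠ b) (hcd : c ≠ d) (hc : det3 n a b c = 0)
    (hd : det3 n a b d = 0) :
    (∀ e, det3 n c d e = 0 ↔ det3 n a b e = 0) ∧ pd n c d = pd n a b ∧
    (∀ e, hf n c d e ↔ hf n a b e) := by
  have hab' : px n b - px n a ≠ 0 ∨ py n b - py n a ≠ 0 := by
    by_contra hcon
    push Not at hcon
    exact hab (px_py_inj (by linarith [hcon.1]) (by linarith [hcon.2]))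
  have hcd' : px n d - px n c ≠ 0 ∨ py n d - py n c ≠ 0 := by
    by_contra hcon
    push Not at hcon
    exact hcd (px_py_inj (by linarith [hcon.1]) (by linarith [hcon.2]))
  have hpar : (px n d - px n c) * (py n b - py n a) = (px n b - px n a) * (py n d - py n c) := by
    unfold det3 at hc hd
    linear_combination hc - hd
  have hp := parallel_prim hpar hcd' hab'
  refine ⟨?_, hp.1, ?_⟩
  · intro e
    constructor
    · intro he
      -- det3 a b e * (d - c) = 0
      have k1 : (px n d - px n c) * det3 n a b e = 0 := by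
        unfold det3 at *
        linear_combination (px n b - px n a) * he + (px n d - px n c) * hc -
          (px n e - px n c) * hpar
      have k2 : (py n d - py n c) * det3 n a b e = 0 := by
        unfold det3 at *
        linear_combination (py n b - py n a) * he + (py n d - py n c) * hc -
          (py n e - py n c) * hpar
      rcases hcd' with h | h
      · exact (mul_eq_zero.1 k1).resolve_left h
      · exact (mul_eq_zero.1 k2).resolve_left h
    · intro he
      have k1 : (px n b - px n a) * det3 n c d e = 0 := by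
        unfold det3 at *
        linear_combination (px n d - px n c) * he - (px n d - px n c) * hc +
          (px n e - px n c) * hpar
      have k2 : (py n b - py n a) * det3 n c d e = 0 := by
        unfold det3 at *
        linear_combination (py n d - py n c) * he - (py n d - py n c) * hc +
          (py n e - py n c) * hpar
      rcases hab' with h | h
      · exact (mul_eq_zero.1 k1).resolve_left h
      · exact (mul_eq_zero.1 k2).resolve_left h
  · intro e
    unfold hf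
    simp only [hp.2]

theorem mem_gline {n a b c : ℕ} : c ∈ gline n a b ↔ c < n ^ 2 ∧ det3 n a b c = 0 := by
  simp [gline]

theorem gline_eq {n a b c d : ℕ} (hab : a ≠ b) (hcd : c ≠ d) (hc : c ∈ gline n a b)
    (hd : d ∈ gline n a b) : gline n c d = gline n a b := by
  have h := (line_eq hab hcd (mem_gline.1 hc).2 (mem_gline.1 hd).2).1
  ext e
  rw [mem_gline, mem_gline, h e]

theorem ghalf_eq {n a b c d : ℕ} (hab : a ≠ b) (hcd : c ≠ d) (hc : c ∈ ghalf n a b)
    (hd : d ∈ ghalf n a b) : ghalf n c d = ghalf n a b := by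
  unfold ghalf at hc hd ⊢
  rw [mem_filter] at hc hd
  have h := line_eq hab hcd (mem_gline.1 hc.1).2 (mem_gline.1 hd.1).2
  rw [gline_eq hab hcd hc.1 hd.1]
  ext e
  rw [mem_filter, mem_filter, h.2.2 e, h.2.2 c, hc.2]

theorem gls_spec {n M : ℕ} {V i : Finset ℕ} (hi : i ∈ gls n V M) {a b : ℕ} (hab : a ≠ b)
    (ha : a ∈ i) (hb : b ∈ i) :
    a ∈ V ∧ b ∈ V ∧ ((M < pd n a b ∧ i = V ∩ gline n a b) ∨
      (pd n a b ≤ M ∧ (hf n a b b ↔ hf n a b a) ∧ i = V ∩ ghalf n a b)) := by
  unfold gls at hi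
  rw [mem_union] at hi
  rcases hi with hi | hi
  · rw [mem_image] at hi
    obtain ⟨q, hq, rfl⟩ := hi
    rw [mem_filter] at hq
    rw [mem_inter] at ha hb
    have h := line_eq hq.2.1 hab (mem_gline.1 ha.2).2 (mem_gline.1 hb.2).2
    refine ⟨ha.1, hb.1, Or.inl ⟨?_, ?_⟩⟩
    · rw [h.2.1]; exact hq.2.2
    · rw [gline_eq hq.2.1 hab ha.2 hb.2]
  · rw [mem_image] at hi
    obtain ⟨q, hq, rfl⟩ := hi
    rw [mem_filter] at hq
    rw [mem_inter] at ha hb
    have ha' := ha.2
    have hb' := hb.2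
    unfold ghalf at ha' hb'
    rw [mem_filter] at ha' hb'
    have h := line_eq hq.2.1 hab (mem_gline.1 ha'.1).2 (mem_gline.1 hb'.1).2
    refine ⟨ha.1, hb.1, Or.inr ⟨?_, ?_, ?_⟩⟩
    · rw [h.2.1]; exact hq.2.2.1
    · rw [h.2.2 b, h.2.2 a, ha'.2, hb'.2]
    · rw [ghalf_eq hq.2.1 hab ha.2 hb.2]

theorem gls_uniq {n M : ℕ} {V : Finset ℕ} : ∀ i ∈ gls n V M, ∀ j ∈ gls n V M, ∀ a b, a ≠ b →
    a ∈ i → b ∈ i → a ∈ j → b ∈ j → i = j := by
  intro i hi j hj a b hab ha hb ha' hb'
  obtain ⟨_, _, h1⟩ := gls_spec hi hab ha hb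
  obtain ⟨_, _, h2⟩ := gls_spec hj hab ha' hb'
  rcases h1 with h1 | h1 <;> rcases h2 with h2 | h2
  · rw [h1.2, h2.2]
  · omega
  · omega
  · rw [h1.2.2, h2.2.2]

theorem gls_sub {n M : ℕ} {V : Finset ℕ} : ∀ i ∈ gls n V M, i ⊆ range (n ^ 2) := by
  intro i hi
  unfold gls at hi
  rw [mem_union, mem_image, mem_image] at hi
  rcases hi with ⟨q, _, rfl⟩ | ⟨q, _, rfl⟩
  · intro c hc
    rw [mem_inter] at hc
    exact mem_range.2 (mem_gline.1 hc.2).1
  · intro c hc
    rw [mem_inter] at hc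
    unfold ghalf at hc
    rw [mem_filter] at hc
    exact mem_range.2 (mem_gline.1 hc.2.1).1

/-- the linear space of the subset `V` of the grid -/
def gridLS (n : ℕ) (V : Finset ℕ) (M : ℕ) : LS where
  N := n ^ 2
  ls := gls n V M
  pre := gpre n M
  sub := gls_sub
  uniq := gls_uniq

/-- no three points in line -/
def NoThree (n : ℕ) (C : Finset ℕ) : Prop :=
  ∀ a ∈ C, ∀ b ∈ C, ∀ c ∈ C, a ≠ b → b ≠ c → a ≠ c → det3 n a b c ≠ 0

/-- the profile, `y` in `[0,1]` -/
def rhoh (y : ℝ) : ℝ := 14287 / 10000 + 57 / 200 * (3 * (1 - 2 * y) - (1 - 2 * y) ^ 3)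

/-- the profile at a grid point -/
def rho (n t : ℕ) : ℝ := rhoh ((((t / n : ℕ) : ℝ) + 1 / 2) / n)

/-- reflection in the horizontal axis -/
def mir (n t : ℕ) : ℕ := t % n + (n - 1 - t / n) * n

/-- functional of a set: sum over the pairs of `Q` contained in `V` -/
def XX (Q : Finset (ℕ × ℕ)) (c : ℕ × ℕ → ℝ) (V : Finset ℕ) : ℝ :=
  ∑ q ∈ Q.filter (fun q => q.1 ∈ V ∧ q.2 ∈ V), c q

/-- pairs `x < z < w` on a line of large direction through `w` -/
def Qup (n M w : ℕ) : Finset (ℕ × ℕ) :=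
  ((range w) ×ˢ (range w)).filter (fun q => q.1 < q.2 ∧ det3 n w q.1 q.2 = 0 ∧ M < pd n w q.1)

/-- pairs `x ≠ z`, both different from `w`, on a line through `w` -/
def Qfull (n w : ℕ) : Finset (ℕ × ℕ) :=
  ((range (n ^ 2)) ×ˢ (range (n ^ 2))).filter
    (fun q => q.1 < q.2 ∧ q.1 ≠ w ∧ q.2 ≠ w ∧ det3 n w q.1 q.2 = 0)

/-- diagonal pairs of a set -/
def Qd (s : Finset ℕ) : Finset (ℕ × ℕ) := s.image (fun z => (z, z))

end

end GPG
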