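import Pool.Agent.Helper97.GP.SCL
import Pool.Agent.Helper7.GP.Nibble
import Pool.Agent.Helper86.GP.Rosenfeld
import Pool.Agent.Helper50.GP.G1
import Pool.Agent.Helper31.GP.G2b
import Pool.Agent.Helper40.GP.G3r
import Pool.Agent.Helper19.GP.G3b
import Pool.Agent.Helper82.GP.H56
import Pool.Agent.Helper81.GP.H7
import Pool.Agent.Helper51.GP.N4
import Pool.Agent.Helper68.GP.UD
import Pool.Agent.Helper82.GP.DI
import Pool.Agent.Helper17.GP.DE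

/-!
# Statements of the blocks with their auxiliary hypotheses discharged
-/

set_option autoImplicit false

open Finset
open scoped Classical

namespace GPG

theorem updist (δ : ℝ) (hδ : 0 < δ) (hδ1 : δ < 1) : ∃ M : ℕ, 1 ≤ M ∧ ∃ C4 > (0 : ℝ),
    ∃ n0 : ℕ, ∀ n ≥ n0, ∀ V ⊆ range (n ^ 2), ∀ q : ℝ, 1 / Real.log n ≤ q → q ≤ 1 →
      (∀ a < n ^ 2, ∀ b < n ^ 2, a ≠ b → ((V ∩ ghalf n a b).card : ℝ) ≤ q * (0.5001 * n)) →
      (∀ a < n ^ 2, ∀ b < n ^ 2, a ≠ b →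
        ((V ∩ gline n a b).card : ℝ) ≤ q * (2 * (gline n a b).card + Real.log n ^ 8)) →
      (∀ w < n ^ 2, XX (Qup n M w) (fun p => rho n p.1 * rho n p.2) V ≤
        q ^ 2 * (0.9984 * (n : ℝ) ^ 2 * Real.log n)) →
      ∃ W : Finset ℕ → ℝ, (∀ C, 0 ≤ W C) ∧ (∀ C, W C ≠ 0 → C ⊆ V ∧ NoThree n C) ∧
        (∑ C ∈ V.powerset, W C = 1) ∧
        (∀ v ∈ V, (1 - δ) * rho n v / (q * n) ≤
          ∑ C ∈ V.powerset.filter (fun C => v ∈ C), W C) ∧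
        (∀ u ∈ V, ∀ v ∈ V, u ≠ v →
          ∑ C ∈ V.powerset.filter (fun C => u ∈ C ∧ v ∈ C), W C ≤ C4 / (q * n) ^ 2) := updist_of
    (fun κ η δ h1 h2 h3 h4 h5 h6 => scl κ η δ h1 h2 h3 h4 h5 h6)
    (fun n M V hV C hCV hC => good_noThree n M V hV C hCV hC)
    (fun n M V hV v => card_pre n M V hV v)
    (fun n M V hV => card_gls n M V hV)
    (fun n t ht => rho_bounds n t ht)
    (fun n M V hV q hq v hv => Pv_le n M V hV q hq v hv)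
    (fun n M V hV q hq hn hh i hi hp => pre_le n M V hV q hq hn hh i hi hp)
    (fun n M hM V hV q hq hn Lg hL hl v => cube_le_of card_gline rho_bounds n M hM V hV q hq hn
      Lg hL hl v)
    (fun η h => H5 η h) (fun η h => H6 η h) (fun η h1 h2 => H7 η h1 h2) δ hδ hδ1

/-- average of the two vertical directions -/
theorem dist_all (δ : ℝ) (hδ : 0 < δ) (hδ1 : δ < 1) : ∃ M : ℕ, 1 ≤ M ∧ ∃ C4 > (0 : ℝ),
    ∃ n0 : ℕ, ∀ n ≥ n0, ∀ V ⊆ range (n ^ 2), ∀ q : ℝ, 1 / Real.log n ≤ q → q ≤ 1 →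
      (∀ a < n ^ 2, ∀ b < n ^ 2, a ≠ b → ((V ∩ ghalf n a b).card : ℝ) ≤ q * (0.5001 * n) ∧
        (((V.image (mir n)) ∩ ghalf n a b).card : ℝ) ≤ q * (0.5001 * n)) →
      (∀ a < n ^ 2, ∀ b < n ^ 2, a ≠ b →
        ((V ∩ gline n a b).card : ℝ) ≤ q * (2 * (gline n a b).card + Real.log n ^ 8)) →
      (∀ w < n ^ 2, XX (Qup n M w) (fun p => rho n p.1 * rho n p.2) V ≤
        q ^ 2 * (0.9984 * (n : ℝ) ^ 2 * Real.log n) ∧
        XX (Qup n M w) (fun p => rho n p.1 * rho n p.2) (V.image (mir n)) ≤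
        q ^ 2 * (0.9984 * (n : ℝ) ^ 2 * Real.log n)) →
      ∃ W : Finset ℕ → ℝ, (∀ C, 0 ≤ W C) ∧ (∀ C, W C ≠ 0 → C ⊆ V ∧ NoThree n C) ∧
        (∑ C ∈ V.powerset, W C = 1) ∧
        (∀ v ∈ V, (1 - δ) * (14287 / 10000) / (q * n) ≤
          ∑ C ∈ V.powerset.filter (fun C => v ∈ C), W C) ∧
        (∀ u ∈ V, ∀ v ∈ V, u ≠ v →
          ∑ C ∈ V.powerset.filter (fun C => u ∈ C ∧ v ∈ C), W C ≤ C4 / (q * n) ^ 2) := dist_of (fun δ h1 h2 => updist δ h1 h2) δ hδ hδ1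

end GPG
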