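import Pool.Agent.Helper96.GP.GDefs

/-!
# Definitions for the pair count of the grid with the cubic profile
-/

open Finset
open scoped Classical

namespace GPG

noncomputable section

/-- weights of the points of `V` -/
def lamV (n : ℕ) (V : Finset ℕ) (q : ℝ) (v : ℕ) : ℝ := if v ∈ V then rho n v / (q * n) else 0

/-- sum of the profile along a half line of direction `(± p, -q)` starting below the row `b`,
with `X` columns available -/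
def SS (n X b p q : ℕ) : ℝ :=
  ∑ k ∈ (range (b + 1)).filter (fun k => 1 ≤ k ∧ k * q ≤ b ∧ k * p ≤ X),
    rhoh (((b : ℝ) + 1 / 2 - k * q) / n)

/-- primitive of the profile -/
def RR (y : ℝ) : ℝ := 19987 / 10000 * y - 57 / 50 * y ^ 3 + 57 / 100 * y ^ 4

def k0 (β : ℝ) : ℝ := 19987 / 10000 - 171 / 50 * β ^ 2 + 57 / 25 * β ^ 3
def k1 (β : ℝ) : ℝ := 171 / 50 * β - 171 / 50 * β ^ 2
def k2 (β : ℝ) : ℝ := -57 / 50 + 57 / 25 * β
def k3 : ℝ := -57 / 100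

/-- `(RR β - RR (β - r)) / r` -/
def KK (β r : ℝ) : ℝ := k0 β + k1 β * r + k2 β * r ^ 2 + k3 * r ^ 3

/-- `RR β - RR (β - r)` -/
def Dd (β r : ℝ) : ℝ := r * KK β r

/-- `∫ s in 0..r, (KK β s)^2` -/
def HH (β r : ℝ) : ℝ :=
  k0 β ^ 2 * r + k0 β * k1 β * r ^ 2 + (k1 β ^ 2 + 2 * k0 β * k2 β) * r ^ 3 / 3 +
  (k0 β * k3 + k1 β * k2 β) * r ^ 4 / 2 + (k2 β ^ 2 + 2 * k1 β * k3) * r ^ 5 / 5 +
  k2 β * k3 * r ^ 6 / 3 + k3 ^ 2 * r ^ 7 / 7

/-- `(RR β)^2 / β + ∫ r in 0..β, (Dd β r / r)^2` -/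
def GG (β : ℝ) : ℝ := β * KK β β ^ 2 + HH β β

theorem RR_sub (β r : ℝ) : RR β - RR (β - r) = Dd β r := by
  unfold RR Dd KK k0 k1 k2 k3; ring

theorem rhoh_eq (y : ℝ) : rhoh y = 19987 / 10000 - 171 / 50 * y ^ 2 + 57 / 25 * y ^ 3 := by
  unfold rhoh; ring

theorem k0_eq (y : ℝ) : k0 y = rhoh y := by rw [rhoh_eq]; rfl

end

end GPG
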