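import Pool.Agent.Helper96.GP.GDefs
import Pool.Agent.Helper7.GPC.Basic

/-!
# The partition number of the grid in the real plane

(after helper7, `Pool/Agent/Helper7/GPC/Final.lean`)
-/

open Filter Asymptotics
open Pool.Agent.Helper7.GPC (Pt col GP Cov)

namespace GPG

/-- The grid `G_n = {1, ..., n}²` in the plane. -/
def grid (n : ℕ) : Set (ℝ × ℝ) :=
  {P | ∃ i j : ℕ, 1 ≤ i ∧ i ≤ n ∧ 1 ≤ j ∧ j ≤ n ∧ P = ((i : ℝ), (j : ℝ))}

/-- A set of points of the plane is in general position: no three of its points are on a line. -/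
def GenPos (S : Set (ℝ × ℝ)) : Prop :=
  ∀ P ∈ S, ∀ Q ∈ S, ∀ R ∈ S, P ≠ Q → P ≠ R → Q ≠ R → ¬ Collinear ℝ {P, Q, R}

/-- `S` can be partitioned into `k` (possibly empty) sets in general position, namely into the
preimages of the elements of `Fin k` under a map. -/
def Partitions (S : Set (ℝ × ℝ)) (k : ℕ) : Prop :=
  ∃ c : S → Fin k, ∀ i, GenPos (Subtype.val '' (c ⁻¹' {i}))

/-- `gp S`: the least number `k` such that `S` can be partitioned into `k` sets in general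
position. -/
noncomputable def gp (S : Set (ℝ × ℝ)) : ℕ := sInf {k : ℕ | Partitions S k}

theorem col_of_collinear {P Q R : Pt} (h : Collinear ℝ {(((P.1 : ℤ) : ℝ), ((P.2 : ℤ) : ℝ)),
    (((Q.1 : ℤ) : ℝ), ((Q.2 : ℤ) : ℝ)), (((R.1 : ℤ) : ℝ), ((R.2 : ℤ) : ℝ))}) : col P Q R := by
  rw [collinear_iff_of_mem (p₀ := (((P.1 : ℤ) : ℝ), ((P.2 : ℤ) : ℝ))) (by simp)] at h
  obtain ⟨v, hv⟩ := h
  obtain ⟨a, ha⟩ := hv (((Q.1 : ℤ) : ℝ), ((Q.2 : ℤ) : ℝ)) (by simp)
  obtain ⟨b, hb⟩ := hv (((R.1 : ℤ) : ℝ), ((R.2 : ℤ) : ℝ)) (by simp)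
  have a1 : ((Q.1 : ℤ) : ℝ) = a * v.1 + P.1 := by
    have := congrArg Prod.fst ha
    simpa using this
  have a2 : ((Q.2 : ℤ) : ℝ) = a * v.2 + P.2 := by
    have := congrArg Prod.snd ha
    simpa using this
  have b1 : ((R.1 : ℤ) : ℝ) = b * v.1 + P.1 := by
    have := congrArg Prod.fst hb
    simpa using this
  have b2 : ((R.2 : ℤ) : ℝ) = b * v.2 + P.2 := by
    have := congrArg Prod.snd hb
    simpa using this
  have key : (((Q.1 - P.1) * (R.2 - P.2) : ℤ) : ℝ) = (((Q.2 - P.2) * (R.1 - P.1) : ℤ) : ℝ) := by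
    push_cast
    rw [a1, a2, b1, b2]
    ring
  unfold col
  exact_mod_cast key

/-- from the numbering of the grid to the plane -/
theorem partitions_of_colouring {n k : ℕ} (f : ℕ → ℕ) (h1 : ∀ v < n ^ 2, f v < k)
    (h2 : ∀ i < k, NoThree n ((Finset.range (n ^ 2)).filter (fun v => f v = i))) :
    Partitions (grid n) k := by
  -- code of a point of the plane
  let code : ℝ × ℝ → ℕ := fun P => (⌊P.2⌋ - 1).toNat * n + (⌊P.1⌋ - 1).toNat
  have hz : ∀ P ∈ grid n, code P < n ^ 2 ∧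
      P = (((px n (code P) + 1 : ℤ) : ℝ), ((py n (code P) + 1 : ℤ) : ℝ)) := by
    rintro P ⟨i, j, hi, hi', hj, hj', rfl⟩
    have e1 : ⌊(i : ℝ)⌋ = i := Int.floor_natCast i
    have e2 : ⌊(j : ℝ)⌋ = j := Int.floor_natCast j
    have ec : code ((i : ℝ), (j : ℝ)) = (j - 1) * n + (i - 1) := by
      show (⌊(j : ℝ)⌋ - 1).toNat * n + (⌊(i : ℝ)⌋ - 1).toNat = _
      rw [e1, e2]
      congr 1
      · congr 1; omega
      · omega
    have hn : 0 < n := by omega
    have hmod : ((j - 1) * n + (i - 1)) % n = i - 1 := by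
      rw [Nat.mul_comm, Nat.mul_add_mod]; exact Nat.mod_eq_of_lt (by omega)
    have hdiv : ((j - 1) * n + (i - 1)) / n = j - 1 := by
      rw [Nat.mul_comm, Nat.mul_add_div hn, Nat.div_eq_of_lt (by omega)]; rfl
    refine ⟨?_, ?_⟩
    · rw [ec]
      have : j - 1 ≤ n - 1 := by omega
      calc (j - 1) * n + (i - 1) ≤ (n - 1) * n + (i - 1) :=
            Nat.add_le_add_right (Nat.mul_le_mul_right n this) _
        _ < (n - 1) * n + n := by omega
        _ = n ^ 2 := by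
            obtain ⟨m, rfl⟩ : ∃ m, n = m + 1 := ⟨n - 1, by omega⟩
            simp; ring
    · unfold px py
      rw [ec, hmod, hdiv]
      push_cast [Nat.cast_sub hi, Nat.cast_sub hj]
      simp
  refine ⟨fun P => ⟨f (code P.1), h1 _ (hz P.1 P.2).1⟩, fun i => ?_⟩
  rintro P ⟨⟨P, hP⟩, hP2, rfl⟩ Q ⟨⟨Q, hQ⟩, hQ2, rfl⟩ R ⟨⟨R, hR⟩, hR2, rfl⟩ hPQ hPR hQR hcol
  have cP : f (code P) = i := congrArg Fin.val hP2
  have cQ : f (code Q) = i := congrArg Fin.val hQ2
  have cR : f (code R) = i := congrArg Fin.val hR2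
  obtain ⟨sP, eP⟩ := hz P hP
  obtain ⟨sQ, eQ⟩ := hz Q hQ
  obtain ⟨sR, eR⟩ := hz R hR
  simp only at hPQ hPR hQR hcol
  have hinj : ∀ S T : ℝ × ℝ, S = (((px n (code S) + 1 : ℤ) : ℝ), ((py n (code S) + 1 : ℤ) : ℝ)) →
      T = (((px n (code T) + 1 : ℤ) : ℝ), ((py n (code T) + 1 : ℤ) : ℝ)) → S ≠ T →
      code S ≠ code T := by
    intro S T hS hT hne h
    apply hne
    rw [hS, hT, h]
  have h3 : col (px n (code P) + 1, py n (code P) + 1) (px n (code Q) + 1, py n (code Q) + 1)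
      (px n (code R) + 1, py n (code R) + 1) := by
    apply col_of_collinear
    rw [eP, eQ, eR] at hcol
    exact hcol
  refine h2 i i.2 (code P) ?_ (code Q) ?_ (code R) ?_ (hinj P Q eP eQ hPQ)
    (hinj Q R eQ eR hQR) (hinj P R eP eR hPR) ?_
  · exact Finset.mem_filter.2 ⟨Finset.mem_range.2 sP, cP⟩
  · exact Finset.mem_filter.2 ⟨Finset.mem_range.2 sQ, cQ⟩
  · exact Finset.mem_filter.2 ⟨Finset.mem_range.2 sR, cR⟩
  · unfold col at h3
    unfold det3
    simp only at h3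
    linarith

/-- the minimum in the definition of `gp` is attained -/
theorem gp_attained (n : ℕ) : Partitions (grid n) (gp (grid n)) := by
  show gp (grid n) ∈ {k : ℕ | Partitions (grid n) k}
  apply Nat.sInf_mem
  refine ⟨n ^ 2, partitions_of_colouring (fun v => v) (fun v hv => hv) ?_⟩
  intro i _ a ha b hb c _ hab _ _ _
  rw [Finset.mem_filter] at ha hb
  exact hab (ha.2.trans hb.2.symm)

theorem gp_le {n k : ℕ} (f : ℕ → ℕ) (h1 : ∀ v < n ^ 2, f v < k)
    (h2 : ∀ i < k, NoThree n ((Finset.range (n ^ 2)).filter (fun v => f v = i))) :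
    gp (grid n) ≤ k := Nat.sInf_le (partitions_of_colouring f h1 h2)

end GPG
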